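import Pool.Agent.Helper73.HV.Slc

/-!
# Integrability for weights `exp (-Ψ)`
-/

open MeasureTheory Set Metric Real
open scoped RealInnerProductSpace ENNReal
open Pool.Agent.Helper16.Buoy (E)

namespace Pool.Agent.Helper73.HV

theorem integrable_gauss {n : ℕ} {a : ℝ} (ha : 0 < a) :
    Integrable (fun x : E n => exp (-a * ‖x‖ ^ 2)) := by
  have h := GaussianFourier.integrable_cexp_neg_mul_sq_norm_add (V := E n) (b := (a : ℂ))
    (by simpa using ha) 0 0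
  have h2 := h.norm
  refine h2.congr (Filter.Eventually.of_forall fun x => ?_)
  simp only [zero_mul, add_zero]
  rw [Complex.norm_exp]
  congr 1
  have : (-(a : ℂ) * (‖x‖ : ℂ) ^ 2) = (((-a * ‖x‖ ^ 2 : ℝ)) : ℂ) := by push_cast; ring
  rw [this, Complex.ofReal_re]

theorem integrable_gauss_sq {n : ℕ} {a : ℝ} (ha : 0 < a) :
    Integrable (fun x : E n => (1 + ‖x‖ ^ 2) ^ 2 * exp (-a * ‖x‖ ^ 2)) := by
  have h := (integrable_gauss (n := n) (a := a / 2) (by positivity)).const_mul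
    (2 * exp (a / 2) * (4 / a) ^ 2 : ℝ)
  refine h.mono' (by fun_prop) (Filter.Eventually.of_forall fun x => ?_)
  rw [Real.norm_of_nonneg (by positivity)]
  -- (1+s)^2 ≤ 2 (4/a)^2 exp (a (1+s)/4 * 2)
  have key : (1 + ‖x‖ ^ 2) ^ 2 ≤ 2 * (4 / a) ^ 2 * exp (a / 2 * (1 + ‖x‖ ^ 2)) := by
    have h1 : a / 4 * (1 + ‖x‖ ^ 2) ≤ exp (a / 4 * (1 + ‖x‖ ^ 2)) := by
      have := add_one_le_exp (a / 4 * (1 + ‖x‖ ^ 2))
      linarith
    have h2 : (a / 4 * (1 + ‖x‖ ^ 2)) ^ 2 ≤ exp (a / 4 * (1 + ‖x‖ ^ 2)) ^ 2 :=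
      pow_le_pow_left₀ (by positivity) h1 2
    rw [← exp_nat_mul] at h2
    have h3 : ((2 : ℕ) : ℝ) * (a / 4 * (1 + ‖x‖ ^ 2)) = a / 2 * (1 + ‖x‖ ^ 2) := by push_cast; ring
    rw [h3] at h2
    calc (1 + ‖x‖ ^ 2) ^ 2 = (4 / a) ^ 2 * (a / 4 * (1 + ‖x‖ ^ 2)) ^ 2 := by
          field_simp
      _ ≤ (4 / a) ^ 2 * exp (a / 2 * (1 + ‖x‖ ^ 2)) := by gcongr
      _ ≤ 2 * (4 / a) ^ 2 * exp (a / 2 * (1 + ‖x‖ ^ 2)) := by
          have : 0 ≤ (4 / a) ^ 2 * exp (a / 2 * (1 + ‖x‖ ^ 2)) := by positivity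
          linarith
  calc (1 + ‖x‖ ^ 2) ^ 2 * exp (-a * ‖x‖ ^ 2)
      ≤ (2 * (4 / a) ^ 2 * exp (a / 2 * (1 + ‖x‖ ^ 2))) * exp (-a * ‖x‖ ^ 2) := by gcongr
    _ = 2 * exp (a / 2) * (4 / a) ^ 2 * exp (-(a / 2) * ‖x‖ ^ 2) := by
        have : exp (a / 2 * (1 + ‖x‖ ^ 2)) * exp (-a * ‖x‖ ^ 2)
            = exp (a / 2) * exp (-(a / 2) * ‖x‖ ^ 2) := by
          rw [← exp_add, ← exp_add]; congr 1; ring
        calc (2 * (4 / a) ^ 2 * exp (a / 2 * (1 + ‖x‖ ^ 2))) * exp (-a * ‖x‖ ^ 2)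
            = 2 * (4 / a) ^ 2 * (exp (a / 2 * (1 + ‖x‖ ^ 2)) * exp (-a * ‖x‖ ^ 2)) := by ring
          _ = _ := by rw [this]; ring

namespace Wt

variable {n : ℕ} {Ψ : E n → ℝ} {a b : ℝ}

theorem exp_le (h : Wt Ψ a b) (x : E n) : exp (-Ψ x) ≤ exp (-a * ‖x‖ ^ 2) := by
  rw [exp_le_exp]; have := h.lo x; linarith

theorem le_exp (h : Wt Ψ a b) (x : E n) : exp (-b * ‖x‖ ^ 2) ≤ exp (-Ψ x) := by
  rw [exp_le_exp]; have := h.up x; linarith

theorem map_zero (h : Wt Ψ a b) : Ψ 0 = 0 := by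
  have h1 := h.lo 0
  have h2 := h.up 0
  simp at h1 h2
  linarith

theorem cont_exp (h : Wt Ψ a b) : Continuous (fun x => exp (-Ψ x)) := by
  have := h.cont
  fun_prop

/-- Functions of at most quartic growth are integrable against the weight. -/
theorem integrable (h : Wt Ψ a b) {φ : E n → ℝ} (hφ : AEStronglyMeasurable φ) {C : ℝ}
    (hb : ∀ x, |φ x| ≤ C * (1 + ‖x‖ ^ 2) ^ 2) : Integrable (fun x => φ x * exp (-Ψ x)) := by
  refine ((integrable_gauss_sq (n := n) h.apos).const_mul C).mono'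
    (hφ.mul h.cont_exp.aestronglyMeasurable) (Filter.Eventually.of_forall fun x => ?_)
  rw [norm_mul, Real.norm_eq_abs, Real.norm_of_nonneg (exp_pos _).le]
  calc |φ x| * exp (-Ψ x) ≤ (C * (1 + ‖x‖ ^ 2) ^ 2) * exp (-a * ‖x‖ ^ 2) :=
        mul_le_mul (hb x) (h.exp_le x) (exp_pos _).le ((abs_nonneg _).trans (hb x))
    _ = _ := by ring

theorem integrable_exp (h : Wt Ψ a b) : Integrable (fun x => exp (-Ψ x)) := by
  have := h.integrable (φ := fun _ => 1) (by fun_prop) (C := 1) (by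
    intro x
    have : 0 ≤ ‖x‖ ^ 2 := by positivity
    simp only [abs_one, one_mul]
    nlinarith)
  simpa using this

theorem integrable_abs (h : Wt Ψ a b) (u : E n) : Integrable (fun x => |inner ℝ u x| * exp (-Ψ x)) := by
  refine h.integrable (by fun_prop) (C := ‖u‖) ?_
  intro x
  rw [abs_abs]
  have h1 := abs_real_inner_le_norm u x
  have h2 : ‖x‖ ≤ (1 + ‖x‖ ^ 2) ^ 2 := by nlinarith [sq_nonneg (‖x‖ - 1), sq_nonneg ‖x‖, norm_nonneg x]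
  exact h1.trans (by gcongr)

theorem integrable_sq (h : Wt Ψ a b) (u : E n) :
    Integrable (fun x => (inner ℝ u x) ^ 2 * exp (-Ψ x)) := by
  refine h.integrable (by fun_prop) (C := ‖u‖ ^ 2) ?_
  intro x
  rw [abs_of_nonneg (sq_nonneg _)]
  have h1 := abs_real_inner_le_norm u x
  have h2 : ‖x‖ ^ 2 ≤ (1 + ‖x‖ ^ 2) ^ 2 := by nlinarith [sq_nonneg ‖x‖, sq_nonneg (‖x‖ ^ 2)]
  calc (inner ℝ u x) ^ 2 = |inner ℝ u x| ^ 2 := (sq_abs _).symm
    _ ≤ (‖u‖ * ‖x‖) ^ 2 := by gcongr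
    _ = ‖u‖ ^ 2 * ‖x‖ ^ 2 := by ring
    _ ≤ _ := by gcongr

end Wt

/-! ## The same in the coordinates `slc` -/

/-- The Gaussian in product coordinates is integrable. -/
theorem integrable_gauss_prod {m : ℕ} {a : ℝ} (ha : 0 < a) :
    Integrable (fun p : ℝ × (Fin m → ℝ) => (1 + (p.1 ^ 2 + ∑ i, p.2 i ^ 2)) ^ 2 *
      exp (-a * (p.1 ^ 2 + ∑ i, p.2 i ^ 2))) := by
  -- transfer from `E (m+1)`
  have h := integrable_gauss_sq (n := m + 1) ha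
  have hmp := volume_preserving_piFinSuccAbove (fun _ : Fin (m + 1) => ℝ) 0
  have h1 := (PiLp.volume_preserving_toLp (Fin (m + 1))).integrable_comp_emb
    (MeasurableEquiv.toLp 2 (Fin (m + 1) → ℝ)).measurableEmbedding |>.mpr h
  have h2 := hmp.symm.integrable_comp_emb
    (MeasurableEquiv.piFinSuccAbove (fun _ : Fin (m + 1) => ℝ) 0).symm.measurableEmbedding |>.mpr h1
  refine h2.congr (Filter.Eventually.of_forall fun p => ?_)
  simp only [Function.comp_apply, Pool.Agent.Helper73.PL.symm_eq_cons]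
  have e : ‖(WithLp.toLp 2 (Fin.cons p.1 p.2 : Fin (m + 1) → ℝ) : E (m + 1))‖ ^ 2
      = p.1 ^ 2 + ∑ i, p.2 i ^ 2 := by
    rw [EuclideanSpace.norm_sq_eq]
    simp [Fin.sum_univ_succ]
  rw [e]

end Pool.Agent.Helper73.HV
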