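import Pool.Agent.Helper73.HV.K
import Pool.Agent.Helper29.HV.BC
import Pool.Agent.Helper29.HV.H
import Pool.Agent.Helper35.HV.Iso
import Pool.Agent.Helper51.HV.J
import Pool.Agent.Helper84.HV.D1
import Pool.Agent.Helper94.HV.D2
import Pool.Agent.Helper94.HV.G
import Pool.Agent.Helper9HV.F

/-!
# The half volume case of the homothety problem for the body of buoyancy, in every dimension
-/

open MeasureTheory Set Metric Real
open scoped RealInnerProductSpace ENNReal
open Pool.Agent.Helper16.Buoy (E IsEllipsoid Homothetic buoyancyBody)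

namespace Pool.Agent.Helper73.HV

theorem iso_ball' : S_iso_ball :=
  iso_ball Pool.Agent.Helper29.HV.dual_lo Pool.Agent.Helper29.HV.dual_up
    Pool.Agent.Helper29.HV.young Pool.Agent.Helper29.HV.young_att Pool.Agent.Helper29.HV.wt_gau
    Pool.Agent.Helper84.HV.slice_lo Pool.Agent.Helper94.HV.D2.slice_up
    Pool.Agent.Helper94.HV.D2.slice_crude Pool.Agent.Helper9HV.adm_of_slices
    Pool.Agent.Helper94.HV.G.univ_bd Pool.Agent.Helper29.HV.conv_one Pool.Agent.Helper29.HV.conv_two

/-- An affine preimage of a ball is an ellipsoid. -/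
theorem ell_of_ball {n : ℕ} {K : Set (E n)} {p : E n} {T : E n ≃L[ℝ] E n} {r : ℝ} (hr : 0 < r)
    (h : T '' ((fun x => x - p) '' K) = closedBall 0 r) : IsEllipsoid K := by
  -- `K = p + T⁻¹ (r B)`
  let S : E n ≃ₗ[ℝ] E n := (LinearEquiv.smulOfNeZero ℝ (E n) r hr.ne').trans T.symm.toLinearEquiv
  let A : E n ≃ᵃ[ℝ] E n := S.toAffineEquiv.trans (AffineEquiv.constVAdd ℝ (E n) p)
  refine ⟨A, ?_⟩
  have hA : ∀ x, A x = p + T.symm (r • x) := by
    intro x
    simp [A, S]
  have hball : (fun x : E n => r • x) '' closedBall (0 : E n) 1 = closedBall 0 r := by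
    have := smul_closedBall' hr.ne' (0 : E n) 1
    rw [smul_zero, Real.norm_of_nonneg hr.le, mul_one] at this
    exact this
  ext x
  constructor
  · rintro ⟨y, hy, rfl⟩
    have h1 : r • y ∈ closedBall (0 : E n) r := by
      rw [← hball]; exact ⟨y, hy, rfl⟩
    rw [← h] at h1
    obtain ⟨_, ⟨z, hz, rfl⟩, hz2⟩ := h1
    rw [hA, ← hz2]
    simp [hz]
  · intro hx
    have h1 : T (x - p) ∈ closedBall (0 : E n) r := by
      rw [← h]; exact ⟨x - p, ⟨x, hx, rfl⟩, rfl⟩
    rw [← hball] at h1
    obtain ⟨y, hy, hy2⟩ := h1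
    refine ⟨y, hy, ?_⟩
    have hy3 : r • y = T (x - p) := hy2
    rw [hA, hy3]
    simp

/-- In dimension at most one every convex body is an ellipsoid. -/
theorem small_dim {n : ℕ} (hn : n ≤ 1) {K : Set (E n)} (hconv : Convex ℝ K) (hcomp : IsCompact K)
    (hint : (interior K).Nonempty) : IsEllipsoid K := by
  have hne : K.Nonempty := hint.mono interior_subset
  interval_cases n
  · -- dimension zero
    refine ⟨AffineEquiv.refl ℝ (E 0), ?_⟩
    obtain ⟨x, hx⟩ := hne
    ext y
    have : y = x := Subsingleton.elim _ _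
    constructor
    · intro _; rw [this]; exact hx
    · intro _; exact ⟨y, by rw [Subsingleton.elim y 0]; simp, rfl⟩
  · -- dimension one: `K` is a segment
    set e : E 1 := EuclideanSpace.single 0 1 with he
    have hcoord : ∀ x : E 1, x = (x 0) • e := by
      intro x
      ext i
      fin_cases i
      simp [he]
    have hcont : Continuous (fun x : E 1 => x 0) := by fun_prop
    obtain ⟨p, hp, hpmin⟩ := hcomp.exists_isMinOn hne hcont.continuousOn
    obtain ⟨q, hq, hqmax⟩ := hcomp.exists_isMaxOn hne hcont.continuousOn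
    have hpm : ∀ x ∈ K, p 0 ≤ x 0 := fun x hx => hpmin hx
    have hqm : ∀ x ∈ K, x 0 ≤ q 0 := fun x hx => hqmax hx
    have hK : K = {x | p 0 ≤ x 0 ∧ x 0 ≤ q 0} := by
      ext x
      constructor
      · intro hx; exact ⟨hpm x hx, hqm x hx⟩
      · rintro ⟨h1, h2⟩
        have hseg : (x 0) ∈ segment ℝ (p 0) (q 0) := by
          rw [segment_eq_Icc (h1.trans h2)]; exact ⟨h1, h2⟩
        obtain ⟨a, b, ha, hb, hab, hx⟩ := hseg
        have := hconv hp hq ha hb hab
        have hx' : x = a • p + b • q := by
          ext i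
          fin_cases i
          simp only [smul_eq_mul] at hx
          simp [hx]
        rw [hx']; exact this
    -- strict inequality from the interior
    have hlt : p 0 < q 0 := by
      by_contra hcon
      push Not at hcon
      have hsub : K ⊆ {p} := by
        intro x hx
        have h1 := hpm x hx
        have h2 := hqm x hx
        have h3 : x 0 = p 0 := le_antisymm (h2.trans hcon) h1
        rw [mem_singleton_iff, hcoord x, hcoord p, h3]
      obtain ⟨x, hx⟩ := hint
      have h4 : interior K ⊆ interior {p} := interior_mono hsub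
      have h5 : interior ({p} : Set (E 1)) = ∅ := by
        have : Nontrivial (E 1) := by infer_instance
        exact interior_singleton p
      rw [h5] at h4
      exact (h4 hx)
    set r := (q 0 - p 0) / 2 with hr
    have hr0 : 0 < r := by rw [hr]; linarith
    set c : E 1 := ((p 0 + q 0) / 2) • e with hc
    refine ell_of_ball (p := c) (T := ContinuousLinearEquiv.refl ℝ (E 1)) hr0 ?_
    ext y
    simp only [ContinuousLinearEquiv.refl_apply, mem_image, exists_exists_and_eq_and,
      mem_closedBall_zero_iff]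
    have hnorm : ∀ y : E 1, ‖y‖ = |y 0| := by
      intro y
      rw [EuclideanSpace.norm_eq]
      simp [Real.sqrt_sq_eq_abs]
    rw [hnorm, abs_le]
    have hc0 : c 0 = (p 0 + q 0) / 2 := by simp [hc, he]
    constructor
    · rintro ⟨x, hx, rfl⟩
      have h1 := hpm x hx
      have h2 := hqm x hx
      rw [PiLp.sub_apply, hc0, hr]
      constructor <;> linarith
    · rintro ⟨h1, h2⟩
      refine ⟨y + c, ?_, by abel⟩
      rw [hK, mem_setOf_eq, PiLp.add_apply, hc0]
      rw [hr] at h1 h2
      constructor <;> linarith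

/-- The half volume case of the homothety problem, in every dimension. -/
theorem half_volume {n : ℕ} {K : Set (E n)} (hconv : Convex ℝ K) (hcomp : IsCompact K)
    (hint : (interior K).Nonempty) {d : ℝ} (hd : 2 * ENNReal.ofReal d = volume K)
    (hhom : Homothetic K (buoyancyBody K d)) : IsEllipsoid K :=
  half_of iso_ball' Pool.Agent.Helper35.HV.exists_iso Pool.Agent.Helper35.HV.eqn_image
    Pool.Agent.Helper51.HV.reduction (fun hn _ h1 h2 h3 => small_dim hn h1 h2 h3)
    (fun hr h => ell_of_ball hr h) hconv hcomp hint hd hhom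

end Pool.Agent.Helper73.HV
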