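import Pool.Agent.Helper73.HV.Stmts

/-!
# A1. One-dimensional convexity and the algebra of the contraction
-/

open MeasureTheory Set Metric Real
open scoped RealInnerProductSpace ENNReal
open Pool.Agent.Helper16.Buoy (E)

namespace Pool.Agent.Helper73.HV

/-! ## Second differences from second derivatives -/

theorem convexOn_of_two {f f' f'' : ℝ → ℝ} (h1 : ∀ t, HasDerivAt f (f' t) t)
    (h2 : ∀ t, HasDerivAt f' (f'' t) t) (h0 : ∀ t, 0 ≤ f'' t) : ConvexOn ℝ univ f := by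
  have e1 : deriv f = f' := funext fun t => (h1 t).deriv
  have e2 : deriv f' = f'' := funext fun t => (h2 t).deriv
  refine convexOn_univ_of_deriv2_nonneg (fun t => (h1 t).differentiableAt) ?_ ?_
  · rw [e1]; exact fun t => (h2 t).differentiableAt
  · intro t
    simp only [Function.iterate_succ, Function.iterate_zero, Function.comp_apply, id]
    rw [e1, e2]; exact h0 t

/-- Tangent line inequality. -/
theorem tangent_le {f f' f'' : ℝ → ℝ} (h1 : ∀ t, HasDerivAt f (f' t) t)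
    (h2 : ∀ t, HasDerivAt f' (f'' t) t) (h0 : ∀ t, 0 ≤ f'' t) (t : ℝ) :
    f 0 + t * f' 0 ≤ f t := by
  have hc := convexOn_of_two h1 h2 h0
  rcases lt_trichotomy t 0 with h | h | h
  · have := hc.slope_le_of_hasDerivAt (mem_univ t) (mem_univ 0) h (h1 0)
    rw [slope_def_field, div_le_iff₀ (by linarith)] at this
    linarith
  · subst h; simp
  · have := hc.le_slope_of_hasDerivAt (mem_univ 0) (mem_univ t) h (h1 0)
    rw [slope_def_field, le_div_iff₀ (by linarith)] at this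
    linarith

theorem sd_nonneg_of_two {f f' f'' : ℝ → ℝ} (h1 : ∀ t, HasDerivAt f (f' t) t)
    (h2 : ∀ t, HasDerivAt f' (f'' t) t) (h0 : ∀ t, 0 ≤ f'' t) (t h : ℝ) :
    0 ≤ sd f t h := by
  have hc := convexOn_of_two h1 h2 h0
  have := hc.2 (mem_univ (t + h)) (mem_univ (t - h)) (by norm_num : (0:ℝ) ≤ 1/2)
    (by norm_num : (0:ℝ) ≤ 1/2) (by norm_num)
  simp only [smul_eq_mul] at this
  have e : 1 / 2 * (t + h) + 1 / 2 * (t - h) = t := by ring
  rw [e] at this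
  unfold sd
  linarith

theorem sd_two_bounds {f f' f'' : ℝ → ℝ} {gm gp : ℝ} (h1 : ∀ t, HasDerivAt f (f' t) t)
    (h2 : ∀ t, HasDerivAt f' (f'' t) t) (h0 : ∀ t, gm ≤ f'' t) (h3 : ∀ t, f'' t ≤ gp) (t h : ℝ) :
    gm * h ^ 2 ≤ sd f t h ∧ sd f t h ≤ gp * h ^ 2 := by
  constructor
  · have a1 : ∀ t, HasDerivAt (fun t => f t - gm / 2 * t ^ 2) (f' t - gm * t) t := by
      intro t
      have := (h1 t).sub (((hasDerivAt_id t).pow 2).const_mul (gm / 2))
      refine this.congr_deriv ?_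
      simp; ring
    have a2 : ∀ t, HasDerivAt (fun t => f' t - gm * t) (f'' t - gm) t := by
      intro t
      have := (h2 t).sub ((hasDerivAt_id t).const_mul gm)
      refine this.congr_deriv ?_
      simp
    have := sd_nonneg_of_two a1 a2 (fun t => by linarith [h0 t]) t h
    unfold sd at this ⊢
    nlinarith [this]
  · have a1 : ∀ t, HasDerivAt (fun t => gp / 2 * t ^ 2 - f t) (gp * t - f' t) t := by
      intro t
      have := (((hasDerivAt_id t).pow 2).const_mul (gp / 2)).sub (h1 t)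
      refine this.congr_deriv ?_
      simp; ring
    have a2 : ∀ t, HasDerivAt (fun t => gp * t - f' t) (gp - f'' t) t := by
      intro t
      have := ((hasDerivAt_id t).const_mul gp).sub (h2 t)
      refine this.congr_deriv ?_
      simp
    have := sd_nonneg_of_two a1 a2 (fun t => by linarith [h3 t]) t h
    unfold sd at this ⊢
    nlinarith [this]

/-! ## Quadratic forms -/

/-- Upper bound for the quadratic form of a state. -/
theorem form_up {y y' m c s lam : ℝ} (hcs : c ^ 2 + s ^ 2 = 1) (h1 : y ^ 2 < lam)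
    (h2 : lam * y' ^ 2 ≤ (lam - y ^ 2) * (lam - y * m)) :
    (c * y + s * y') ^ 2 + y * m * s ^ 2 ≤ lam := by
  have hp : 0 < lam - y ^ 2 := by linarith
  have key : 0 ≤ (lam - y ^ 2) * (lam - ((c * y + s * y') ^ 2 + y * m * s ^ 2)) := by
    have e : (lam - y ^ 2) * (lam * (c ^ 2 + s ^ 2) - ((c * y + s * y') ^ 2 + y * m * s ^ 2))
        = ((lam - y ^ 2) * c - y * y' * s) ^ 2
          + ((lam - y ^ 2) * (lam - y * m) - lam * y' ^ 2) * s ^ 2 := by ring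
    rw [hcs, mul_one] at e
    rw [e]
    have : 0 ≤ ((lam - y ^ 2) * (lam - y * m) - lam * y' ^ 2) := by linarith
    positivity
  have := nonneg_of_mul_nonneg_right key hp
  linarith

/-- Lower bound for the quadratic form of a state. -/
theorem form_lo {y y' m c s mu : ℝ} (hcs : c ^ 2 + s ^ 2 = 1) (h1 : mu < y ^ 2)
    (h2 : mu * y' ^ 2 ≤ (y ^ 2 - mu) * (y * m - mu)) :
    mu ≤ (c * y + s * y') ^ 2 + y * m * s ^ 2 := by
  have hp : 0 < y ^ 2 - mu := by linarith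
  have key : 0 ≤ (y ^ 2 - mu) * ((c * y + s * y') ^ 2 + y * m * s ^ 2 - mu) := by
    have e : (y ^ 2 - mu) * ((c * y + s * y') ^ 2 + y * m * s ^ 2 - mu * (c ^ 2 + s ^ 2))
        = ((y ^ 2 - mu) * c + y * y' * s) ^ 2
          + ((y ^ 2 - mu) * (y * m - mu) - mu * y' ^ 2) * s ^ 2 := by ring
    rw [hcs, mul_one] at e
    rw [e]
    have : 0 ≤ ((y ^ 2 - mu) * (y * m - mu) - mu * y' ^ 2) := by linarith
    positivity
  have := nonneg_of_mul_nonneg_right key hp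
  linarith

/-- The cubic inequality behind both bounds. -/
theorem cubic {P Q th g y : ℝ} (hP : 0 < P) (hth : 0 < th) (hQ : 3 * P * th ^ 2 = Q)
    (hg : 0 < g) (hy : 0 ≤ y) : g ^ 2 * Q * y ≤ P * y ^ 3 + 2 * P * th ^ 3 * g ^ 3 := by
  subst hQ
  have h : 0 ≤ P * ((y - g * th) ^ 2 * (y + 2 * (g * th))) := by positivity
  nlinarith [h]

/-- Comparison of the constants. -/
theorem const_lt {A B th : ℝ} (hA : 0 < A) (hB : 0 < B) (hne : A ≠ B) (hth : 0 < th)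
    (e1 : 3 * B * th ^ 2 = B + 2 * A) : 2 * A < 2 * B * th ^ 3 := by
  have hk0 : 0 < 2 * B * th ^ 3 := by positivity
  have h1 : (2 * A) ^ 2 < (2 * B * th ^ 3) ^ 2 := by
    have e2 : 27 * B * (2 * B * th ^ 3) ^ 2 = 4 * (B + 2 * A) ^ 3 := by
      rw [← e1]; ring
    have e3 : 27 * B * (2 * B * th ^ 3) ^ 2 - 27 * B * (2 * A) ^ 2
        = 4 * ((B - A) ^ 2 * (B + 8 * A)) := by
      rw [e2]; ring
    have e4 : 0 < 4 * ((B - A) ^ 2 * (B + 8 * A)) := by
      have : 0 < (B - A) ^ 2 := by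
        have : B - A ≠ 0 := sub_ne_zero.mpr (Ne.symm hne)
        positivity
      positivity
    have e5 : 0 < 27 * B * ((2 * B * th ^ 3) ^ 2 - (2 * A) ^ 2) := by nlinarith
    have := (mul_pos_iff_of_pos_left (by positivity : 0 < 27 * B)).mp e5
    linarith
  exact lt_of_pow_lt_pow_left₀ 2 hk0.le h1

theorem exists_th {A B : ℝ} (hA : 0 < A) (hB : 0 < B) :
    ∃ th : ℝ, 0 < th ∧ 3 * B * th ^ 2 = B + 2 * A := by
  refine ⟨√((B + 2 * A) / (3 * B)), Real.sqrt_pos.mpr (by positivity), ?_⟩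
  rw [Real.sq_sqrt (by positivity)]; field_simp

/-- Existence of the upper level. -/
theorem upper_level {A k R : ℝ} (hA : 0 < A) (hk : 2 * A < k) (hR : 0 ≤ R) :
    ∃ g : ℝ, A + R < g ∧ g ^ 2 - k * g + A ^ 2 - R ^ 2 = 0 := by
  set D := k ^ 2 - 4 * (A ^ 2 - R ^ 2) with hD
  have hk0 : 0 < k := by linarith
  have hD1 : (2 * (A + R) - k) ^ 2 < D := by
    have : D - (2 * (A + R) - k) ^ 2 = 4 * (A + R) * (k - 2 * A) := by rw [hD]; ring
    have h2 : 0 < 4 * (A + R) * (k - 2 * A) := mul_pos (by linarith) (by linarith)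
    linarith
  have hD0 : 0 ≤ D := (sq_nonneg _).trans hD1.le
  have hs : √D ^ 2 = D := Real.sq_sqrt hD0
  have h3 : 2 * (A + R) - k < √D := Real.lt_sqrt_of_sq_lt hD1
  refine ⟨(k + √D) / 2, by linarith, ?_⟩
  have : ((k + √D) / 2) ^ 2 - k * ((k + √D) / 2) + A ^ 2 - R ^ 2
      = (√D ^ 2 - D) / 4 := by rw [hD]; ring
  rw [this, hs]; simp

/-- Existence of the lower level. -/
theorem lower_level {B k R : ℝ} (hk : 2 * B < k) (hR : 0 ≤ R) (hRB : R < B) :
    ∃ g : ℝ, 0 < g ∧ g < B - R ∧ g ^ 2 - k * g + B ^ 2 - R ^ 2 = 0 := by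
  set D := k ^ 2 - 4 * (B ^ 2 - R ^ 2) with hD
  have hk0 : 0 < k := by linarith
  have hD1 : (k - 2 * (B - R)) ^ 2 < D := by
    have : D - (k - 2 * (B - R)) ^ 2 = 4 * (B - R) * (k - 2 * B) := by rw [hD]; ring
    have h2 : 0 < 4 * (B - R) * (k - 2 * B) := mul_pos (by linarith) (by linarith)
    linarith
  have hD0 : 0 ≤ D := (sq_nonneg _).trans hD1.le
  have hs : √D ^ 2 = D := Real.sq_sqrt hD0
  have h3 : k - 2 * (B - R) < √D := Real.lt_sqrt_of_sq_lt hD1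
  have h4 : √D < k := by
    rw [Real.sqrt_lt' hk0, hD]
    have : 0 < (B - R) * (B + R) := mul_pos (by linarith) (by linarith)
    nlinarith
  refine ⟨(k - √D) / 2, by linarith, by linarith, ?_⟩
  have : ((k - √D) / 2) ^ 2 - k * ((k - √D) / 2) + B ^ 2 - R ^ 2
      = (√D ^ 2 - D) / 4 := by rw [hD]; ring
  rw [this, hs]; simp

/-- The final comparison: the two levels contract. -/
theorem levels_lt {A B R1 R2 th th' g h : ℝ} (hA : 0 < A) (hAB : A < B) (hk : B ≤ 10 * A)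
    (hth : 0 < th) (hth' : 0 < th')
    (e1 : 3 * B * th ^ 2 = B + 2 * A) (e2 : 3 * A * th' ^ 2 = A + 2 * B)
    (hR : R1 ^ 2 + R2 ^ 2 ≤ (B - A) ^ 2) (hg0 : 0 < g) (hh0 : 0 < h)
    (hg : g ^ 2 - 2 * B * th ^ 3 * g + A ^ 2 - R1 ^ 2 = 0)
    (hh : h ^ 2 - 2 * A * th' ^ 3 * h + B ^ 2 - R2 ^ 2 = 0) : g * A < h * B := by
  have hB : 0 < B := hA.trans hAB
  by_contra hcon
  push Not at hcon
  set k := 2 * B * th ^ 3 with hkd
  set k' := 2 * A * th' ^ 3 with hkd'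
  have hk0 : 0 < k := by positivity
  have hk0' : 0 < k' := by positivity
  have s1 : 27 * B * k ^ 2 = 4 * (B + 2 * A) ^ 3 := by rw [← e1, hkd]; ring
  have s2 : 27 * A * k' ^ 2 = 4 * (A + 2 * B) ^ 3 := by rw [← e2, hkd']; ring
  -- `A k ≤ B k'`
  have hkk : A * k ≤ B * k' := by
    have h2A : k ^ 2 * A ^ 2 ≤ k' ^ 2 * B ^ 2 := by
      have t1 : 27 * A * B * (k ^ 2 * A ^ 2) ≤ 27 * A * B * (k' ^ 2 * B ^ 2) := by
        have u1 : 27 * A * B * (k ^ 2 * A ^ 2) = 4 * (B + 2 * A) ^ 3 * A ^ 3 := by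
          rw [← s1]; ring
        have u2 : 27 * A * B * (k' ^ 2 * B ^ 2) = 4 * (A + 2 * B) ^ 3 * B ^ 3 := by
          rw [← s2]; ring
        rw [u1, u2]
        have u3 : B + 2 * A ≤ A + 2 * B := by linarith
        gcongr
      exact le_of_mul_le_mul_left t1 (by positivity)
    have : (A * k) ^ 2 ≤ (B * k') ^ 2 := by nlinarith
    exact le_of_sq_le_sq this (by positivity)
  -- disc inequality
  have hdisc : (g - k / 2) ^ 2 + (h - k' / 2) ^ 2 ≤ (k ^ 2 + k' ^ 2) / 4 - 2 * A * B := by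
    nlinarith [hg, hh, hR]
  -- projection
  have hproj : ((B * k' - A * k) / 2) ^ 2 ≤ (A ^ 2 + B ^ 2) * ((g - k / 2) ^ 2 + (h - k' / 2) ^ 2) := by
    have id1 : (A ^ 2 + B ^ 2) * ((g - k / 2) ^ 2 + (h - k' / 2) ^ 2)
        = ((g * A - h * B) + (B * k' - A * k) / 2) ^ 2
          + (B * (g - k / 2) + A * (h - k' / 2)) ^ 2 := by ring
    rw [id1]
    have h1 : 0 ≤ g * A - h * B := by linarith
    have h2 : 0 ≤ (B * k' - A * k) / 2 := by linarith
    nlinarith [sq_nonneg (B * (g - k / 2) + A * (h - k' / 2)), mul_nonneg h1 h2, sq_nonneg (g * A - h * B)]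
  have h3 : ((B * k' - A * k) / 2) ^ 2 ≤ (A ^ 2 + B ^ 2) * ((k ^ 2 + k' ^ 2) / 4 - 2 * A * B) :=
    hproj.trans (mul_le_mul_of_nonneg_left hdisc (by positivity))
  have h4 : 8 * A * B * (A ^ 2 + B ^ 2) ≤ (A * k' + B * k) ^ 2 := by nlinarith [h3]
  have h5 : (A * k' + B * k) ^ 2 ≤ 2 * (A ^ 2 * k' ^ 2 + B ^ 2 * k ^ 2) := by
    nlinarith [sq_nonneg (A * k' - B * k)]
  have h6 : 27 * (A ^ 2 * k' ^ 2 + B ^ 2 * k ^ 2) = 4 * (A * (A + 2 * B) ^ 3 + B * (B + 2 * A) ^ 3) := by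
    have v1 : 27 * (A ^ 2 * k' ^ 2) = A * (27 * A * k' ^ 2) := by ring
    have v2 : 27 * (B ^ 2 * k ^ 2) = B * (27 * B * k ^ 2) := by ring
    rw [mul_add, v1, v2, s1, s2]; ring
  have h7 : 27 * A * B * (A ^ 2 + B ^ 2) ≤ A * (A + 2 * B) ^ 3 + B * (B + 2 * A) ^ 3 := by
    nlinarith [h4, h5, h6]
  have h8 : A * (A + 2 * B) ^ 3 + B * (B + 2 * A) ^ 3 - 27 * A * B * (A ^ 2 + B ^ 2)
      = (B - A) ^ 2 * (A ^ 2 - B * (11 * A - B)) := by ring
  have h9 : A ^ 2 - B * (11 * A - B) < 0 := by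
    have : A ≤ 11 * A - B := by linarith
    have : B * A ≤ B * (11 * A - B) := mul_le_mul_of_nonneg_left this hB.le
    nlinarith
  have h10 : 0 < (B - A) ^ 2 := by
    have : 0 < B - A := by linarith
    positivity
  nlinarith [mul_neg_of_pos_of_neg h10 h9]

/-- Upper bound of all states. -/
theorem state_up {A B R th g y y' m c s : ℝ} (hB : 0 < B) (hth : 0 < th)
    (e1 : 3 * B * th ^ 2 = B + 2 * A) (hg0 : 0 < g)
    (hg : g ^ 2 - 2 * B * th ^ 3 * g + A ^ 2 - R ^ 2 = 0) (hy0 : 0 ≤ y) (hyg : y < g)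
    (hst : (y - A) ^ 2 + y' ^ 2 ≤ R ^ 2) (hm : m ≤ B) (hcs : c ^ 2 + s ^ 2 = 1) :
    (c * y + s * y') ^ 2 + y * m * s ^ 2 ≤ g ^ 2 := by
  have hc := cubic hB hth e1 hg0 hy0
  have hyg2 : y ^ 2 < g ^ 2 := by nlinarith
  refine form_up hcs hyg2 ?_
  have h1 : (g ^ 2 - y ^ 2) * (g ^ 2 - y * B) ≤ (g ^ 2 - y ^ 2) * (g ^ 2 - y * m) := by
    apply mul_le_mul_of_nonneg_left _ (by linarith)
    nlinarith
  refine le_trans ?_ h1
  have h2 : g ^ 2 * y' ^ 2 ≤ g ^ 2 * (R ^ 2 - (y - A) ^ 2) :=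
    mul_le_mul_of_nonneg_left (by linarith) (by positivity)
  refine h2.trans ?_
  have h3 : g ^ 2 * (g ^ 2 + A ^ 2 - R ^ 2) = g ^ 2 * (2 * B * th ^ 3 * g) := by
    congr 1; linarith
  nlinarith [hc, h3]

/-- Lower bound of all states. -/
theorem state_lo {A B R th g y y' m c s : ℝ} (hA : 0 < A) (hth : 0 < th)
    (e1 : 3 * A * th ^ 2 = A + 2 * B) (hg0 : 0 < g)
    (hg : g ^ 2 - 2 * A * th ^ 3 * g + B ^ 2 - R ^ 2 = 0) (hyg : g < y)
    (hst : (B - y) ^ 2 + y' ^ 2 ≤ R ^ 2) (hm : A ≤ m) (hcs : c ^ 2 + s ^ 2 = 1) :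
    g ^ 2 ≤ (c * y + s * y') ^ 2 + y * m * s ^ 2 := by
  have hy0 : 0 ≤ y := by linarith
  have hc := cubic hA hth e1 hg0 hy0
  have hyg2 : g ^ 2 < y ^ 2 := by nlinarith
  refine form_lo hcs hyg2 ?_
  have h1 : (y ^ 2 - g ^ 2) * (y * A - g ^ 2) ≤ (y ^ 2 - g ^ 2) * (y * m - g ^ 2) := by
    apply mul_le_mul_of_nonneg_left _ (by linarith)
    nlinarith
  refine le_trans ?_ h1
  have h2 : g ^ 2 * y' ^ 2 ≤ g ^ 2 * (R ^ 2 - (B - y) ^ 2) :=
    mul_le_mul_of_nonneg_left (by linarith) (by positivity)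
  refine h2.trans ?_
  have h3 : g ^ 2 * (g ^ 2 + B ^ 2 - R ^ 2) = g ^ 2 * (2 * A * th ^ 3 * g) := by
    congr 1; linarith
  nlinarith [hc, h3]

end Pool.Agent.Helper73.HV
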