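import Pool.Agent.Helper73.HV.A1

/-!
# A2. States along the lines `v + t w`
-/

open MeasureTheory Set Metric Real
open scoped RealInnerProductSpace ENNReal
open Pool.Agent.Helper16.Buoy (E)

namespace Pool.Agent.Helper73.HV

variable {n : ℕ} {F : E n → ℝ} {A B : ℝ}

theorem one_add_sq_pos (t : ℝ) : 0 < 1 + t ^ 2 := by positivity

theorem hasDerivAt_nrm (t : ℝ) : HasDerivAt (fun t : ℝ => √(1 + t ^ 2)) (t / √(1 + t ^ 2)) t := by
  have h1 : HasDerivAt (fun t : ℝ => 1 + t ^ 2) (2 * t) t := by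
    have := ((hasDerivAt_id t).pow 2).const_add 1
    refine this.congr_deriv ?_
    simp
  have := h1.sqrt (one_add_sq_pos t).ne'
  refine this.congr_deriv ?_
  field_simp

theorem hasDerivAt_nrm' (t : ℝ) :
    HasDerivAt (fun t : ℝ => t / √(1 + t ^ 2)) (1 / (√(1 + t ^ 2)) ^ 3) t := by
  have hs : 0 < √(1 + t ^ 2) := Real.sqrt_pos.mpr (one_add_sq_pos t)
  have hs2 : √(1 + t ^ 2) ^ 2 = 1 + t ^ 2 := Real.sq_sqrt (one_add_sq_pos t).le
  have := (hasDerivAt_id t).div (hasDerivAt_nrm t) hs.ne'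
  refine this.congr_deriv ?_
  simp only [id]
  field_simp
  rw [hs2]; ring

/-- Squared norm of `v + t w`. -/
theorem norm_line {v w : E n} (hv : ‖v‖ = 1) (hw : ‖w‖ = 1) (hvw : inner ℝ v w = 0) (a b : ℝ) :
    ‖a • v + b • w‖ ^ 2 = a ^ 2 + b ^ 2 := by
  rw [@norm_add_sq_real, norm_smul, norm_smul, inner_smul_left, inner_smul_right, hvw, hv, hw]
  simp

theorem norm_line' {v w : E n} (hv : ‖v‖ = 1) (hw : ‖w‖ = 1) (hvw : inner ℝ v w = 0) (t : ℝ) :
    ‖v + t • w‖ = √(1 + t ^ 2) := by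
  have := norm_line hv hw hvw 1 t
  rw [one_smul, one_pow] at this
  rw [← this, Real.sqrt_sq (norm_nonneg _)]

theorem Adm.even (hF : Adm F A B) (x : E n) : F (-x) = F x := by
  have := hF.homog (-1) x
  simpa using this

theorem Adm.zero (hF : Adm F A B) : F 0 = 0 := by
  have := hF.homog 0 0
  simpa using this

/-- Tangent line inequalities for `F - A|.|` and `B|.| - F`. -/
theorem Adm.tangent (hF : Adm F A B) {v w : E n} (hv : ‖v‖ = 1) (hw : ‖w‖ = 1)
    (hvw : inner ℝ v w = 0) {d : ℝ} (hd : HasDerivAt (fun t : ℝ => F (v + t • w)) d 0) (t : ℝ) :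
    F v - A + t * d ≤ F (v + t • w) - A * √(1 + t ^ 2) ∧
      B - F v - t * d ≤ B * √(1 + t ^ 2) - F (v + t • w) := by
  obtain ⟨g', m, h1, h2, h3⟩ := hF.ode v w hv hw hvw
  have hd' : g' 0 = d := (h1 0).unique hd
  have hs : ∀ t : ℝ, 0 < (√(1 + t ^ 2)) ^ 3 := fun t => by
    have := Real.sqrt_pos.mpr (one_add_sq_pos t); positivity
  constructor
  · have a1 : ∀ t, HasDerivAt (fun t => F (v + t • w) - A * √(1 + t ^ 2))
        (g' t - A * (t / √(1 + t ^ 2))) t := fun t => (h1 t).sub ((hasDerivAt_nrm t).const_mul A)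
    have a2 : ∀ t, HasDerivAt (fun t => g' t - A * (t / √(1 + t ^ 2)))
        (m t / (√(1 + t ^ 2)) ^ 3 - A * (1 / (√(1 + t ^ 2)) ^ 3)) t := fun t =>
      (h2 t).sub ((hasDerivAt_nrm' t).const_mul A)
    have := tangent_le a1 a2 (fun t => by
      have : m t / (√(1 + t ^ 2)) ^ 3 - A * (1 / (√(1 + t ^ 2)) ^ 3)
        = (m t - A) / (√(1 + t ^ 2)) ^ 3 := by ring
      rw [this]
      exact div_nonneg (by linarith [(h3 t).1]) (hs t).le) t
    simp only [zero_smul, add_zero] at this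
    norm_num at this
    rw [hd'] at this
    linarith
  · have a1 : ∀ t, HasDerivAt (fun t => B * √(1 + t ^ 2) - F (v + t • w))
        (B * (t / √(1 + t ^ 2)) - g' t) t := fun t => ((hasDerivAt_nrm t).const_mul B).sub (h1 t)
    have a2 : ∀ t, HasDerivAt (fun t => B * (t / √(1 + t ^ 2)) - g' t)
        (B * (1 / (√(1 + t ^ 2)) ^ 3) - m t / (√(1 + t ^ 2)) ^ 3) t := fun t =>
      ((hasDerivAt_nrm' t).const_mul B).sub (h2 t)
    have := tangent_le a1 a2 (fun t => by
      have : B * (1 / (√(1 + t ^ 2)) ^ 3) - m t / (√(1 + t ^ 2)) ^ 3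
        = (B - m t) / (√(1 + t ^ 2)) ^ 3 := by ring
      rw [this]
      exact div_nonneg (by linarith [(h3 t).2]) (hs t).le) t
    simp only [zero_smul, add_zero] at this
    norm_num at this
    rw [hd'] at this
    linarith

theorem Adm.exists_deriv (hF : Adm F A B) {v w : E n} (hv : ‖v‖ = 1) (hw : ‖w‖ = 1)
    (hvw : inner ℝ v w = 0) : ∃ d, HasDerivAt (fun t : ℝ => F (v + t • w)) d 0 := by
  obtain ⟨g', m, h1, -, -⟩ := hF.ode v w hv hw hvw
  exact ⟨g' 0, h1 0⟩

/-- In dimension at least two every unit vector has an orthogonal unit vector. -/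
theorem exists_perp (hn : 2 ≤ n) (w : E n) : ∃ v : E n, ‖v‖ = 1 ∧ inner ℝ v w = 0 := by
  have hfin : Module.finrank ℝ (E n) = n := by simp
  have h1 : Module.finrank ℝ (ℝ ∙ w) ≤ 1 := by
    have := finrank_span_le_card (R := ℝ) ({w} : Set (E n))
    simpa using this
  have h2 : 0 < Module.finrank ℝ (ℝ ∙ w)ᗮ := by
    have := Submodule.finrank_add_finrank_orthogonal (ℝ ∙ w)
    omega
  have := Module.nontrivial_of_finrank_pos h2
  obtain ⟨x, hx⟩ := exists_ne (0 : (ℝ ∙ w)ᗮ)
  have hx' : (x : E n) ≠ 0 := by simpa using hx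
  refine ⟨(‖(x : E n)‖)⁻¹ • (x : E n), norm_smul_inv_norm hx', ?_⟩
  rw [inner_smul_left]
  have := Submodule.mem_orthogonal_singleton_iff_inner_left.mp x.2
  rw [this]; simp

/-- `A ≤ F ≤ B` on the unit sphere. -/
theorem Adm.bounds (hF : Adm F A B) (hn : 2 ≤ n) {w : E n} (hw : ‖w‖ = 1) : A ≤ F w ∧ F w ≤ B := by
  obtain ⟨v, hv, hvw⟩ := exists_perp hn w
  obtain ⟨d, hd⟩ := hF.exists_deriv hv hw hvw
  have hcont := hF.cont
  -- divide by `t` and let `t → ∞`; here with `e = 1/t`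
  have key : ∀ e : ℝ, 0 < e → e * (F v - A) ≤ (F (e • v + w) + F (e • v - w)) / 2 - A * √(e ^ 2 + 1) ∧
      e * (B - F v) ≤ B * √(e ^ 2 + 1) - (F (e • v + w) + F (e • v - w)) / 2 := by
    intro e he
    have h1 := hF.tangent hv hw hvw hd e⁻¹
    have h2 := hF.tangent hv hw hvw hd (-e⁻¹)
    have e1 : F (e • v + w) = e * F (v + e⁻¹ • w) := by
      have := hF.homog e (v + e⁻¹ • w)
      rw [smul_add, smul_smul, mul_inv_cancel₀ he.ne', one_smul, abs_of_pos he] at this
      exact this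
    have e2 : F (e • v - w) = e * F (v + (-e⁻¹) • w) := by
      have := hF.homog e (v + (-e⁻¹) • w)
      rw [smul_add, smul_smul, mul_neg, mul_inv_cancel₀ he.ne', neg_smul, one_smul, abs_of_pos he] at this
      rw [← this, sub_eq_add_neg]
    have e3 : √(e ^ 2 + 1) = e * √(1 + e⁻¹ ^ 2) := by
      have : e ^ 2 + 1 = e ^ 2 * (1 + e⁻¹ ^ 2) := by field_simp
      rw [this, Real.sqrt_mul (by positivity), Real.sqrt_sq he.le]
    rw [e1, e2, e3]
    have e4 : (-e⁻¹) ^ 2 = e⁻¹ ^ 2 := by ring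
    rw [e4] at h2
    constructor
    · have := add_le_add h1.1 h2.1
      have h5 : F v - A ≤ (F (v + e⁻¹ • w) + F (v + (-e⁻¹) • w)) / 2 - A * √(1 + e⁻¹ ^ 2) := by
        linarith
      calc e * (F v - A) ≤ e * ((F (v + e⁻¹ • w) + F (v + (-e⁻¹) • w)) / 2 - A * √(1 + e⁻¹ ^ 2)) :=
            mul_le_mul_of_nonneg_left h5 he.le
        _ = _ := by ring
    · have h5 : B - F v ≤ B * √(1 + e⁻¹ ^ 2) - (F (v + e⁻¹ • w) + F (v + (-e⁻¹) • w)) / 2 := by
        linarith [h1.2, h2.2]
      calc e * (B - F v) ≤ e * (B * √(1 + e⁻¹ ^ 2) - (F (v + e⁻¹ • w) + F (v + (-e⁻¹) • w)) / 2) :=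
            mul_le_mul_of_nonneg_left h5 he.le
        _ = _ := by ring
  have c1 : Filter.Tendsto (fun e : ℝ => e * (F v - A)) (nhdsWithin 0 (Ioi 0)) (nhds 0) := by
    have : Continuous (fun e : ℝ => e * (F v - A)) := by fun_prop
    have := this.tendsto 0
    simp only [zero_mul] at this
    exact this.mono_left nhdsWithin_le_nhds
  have c2 : Filter.Tendsto (fun e : ℝ => (F (e • v + w) + F (e • v - w)) / 2 - A * √(e ^ 2 + 1))
      (nhdsWithin 0 (Ioi 0)) (nhds (F w - A)) := by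
    have : Continuous (fun e : ℝ => (F (e • v + w) + F (e • v - w)) / 2 - A * √(e ^ 2 + 1)) := by
      fun_prop
    have := this.tendsto 0
    simp only [zero_smul, zero_add, zero_sub, hF.even] at this
    norm_num at this
    exact this.mono_left nhdsWithin_le_nhds
  have c3 : Filter.Tendsto (fun e : ℝ => e * (B - F v)) (nhdsWithin 0 (Ioi 0)) (nhds 0) := by
    have : Continuous (fun e : ℝ => e * (B - F v)) := by fun_prop
    have := this.tendsto 0
    simp only [zero_mul] at this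
    exact this.mono_left nhdsWithin_le_nhds
  have c4 : Filter.Tendsto (fun e : ℝ => B * √(e ^ 2 + 1) - (F (e • v + w) + F (e • v - w)) / 2)
      (nhdsWithin 0 (Ioi 0)) (nhds (B - F w)) := by
    have : Continuous (fun e : ℝ => B * √(e ^ 2 + 1) - (F (e • v + w) + F (e • v - w)) / 2) := by
      fun_prop
    have := this.tendsto 0
    simp only [zero_smul, zero_add, zero_sub, hF.even] at this
    norm_num at this
    exact this.mono_left nhdsWithin_le_nhds
  have r1 := le_of_tendsto_of_tendsto c1 c2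
    (Filter.eventually_of_mem self_mem_nhdsWithin fun e he => (key e he).1)
  have r2 := le_of_tendsto_of_tendsto c3 c4
    (Filter.eventually_of_mem self_mem_nhdsWithin fun e he => (key e he).2)
  constructor <;> linarith

/-- `A|x| ≤ F x ≤ B|x|`. -/
theorem Adm.bounds' (hF : Adm F A B) (hn : 2 ≤ n) (x : E n) : A * ‖x‖ ≤ F x ∧ F x ≤ B * ‖x‖ := by
  rcases eq_or_ne x 0 with rfl | hx
  · simp [hF.zero]
  · have hx0 : 0 < ‖x‖ := norm_pos_iff.mpr hx
    have h1 := hF.bounds hn (w := (‖x‖)⁻¹ • x) (norm_smul_inv_norm hx)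
    have h2 : F ((‖x‖)⁻¹ • x) = (‖x‖)⁻¹ * F x := by
      rw [hF.homog, abs_of_pos (by positivity)]
    rw [h2] at h1
    have h3 : (‖x‖)⁻¹ * F x * ‖x‖ = F x := by field_simp
    constructor
    · have := mul_le_mul_of_nonneg_right h1.1 hx0.le
      linarith
    · have := mul_le_mul_of_nonneg_right h1.2 hx0.le
      linarith

theorem Adm.le_mul (hF : Adm F A B) {R : ℝ} (hR : ∀ u : E n, ‖u‖ = 1 → F u ≤ R) (x : E n) :
    F x ≤ R * ‖x‖ := by
  rcases eq_or_ne x 0 with rfl | hx
  · simp [hF.zero]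
  · have hx0 : 0 < ‖x‖ := norm_pos_iff.mpr hx
    have h1 := hR ((‖x‖)⁻¹ • x) (norm_smul_inv_norm hx)
    rw [hF.homog, abs_of_pos (by positivity)] at h1
    have := mul_le_mul_of_nonneg_right h1 hx0.le
    have h3 : (‖x‖)⁻¹ * F x * ‖x‖ = F x := by field_simp
    linarith

theorem Adm.mul_le (hF : Adm F A B) {r : ℝ} (hr : ∀ u : E n, ‖u‖ = 1 → r ≤ F u) (x : E n) :
    r * ‖x‖ ≤ F x := by
  rcases eq_or_ne x 0 with rfl | hx
  · simp [hF.zero]
  · have hx0 : 0 < ‖x‖ := norm_pos_iff.mpr hx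
    have h1 := hr ((‖x‖)⁻¹ • x) (norm_smul_inv_norm hx)
    rw [hF.homog, abs_of_pos (by positivity)] at h1
    have := mul_le_mul_of_nonneg_right h1 hx0.le
    have h3 : (‖x‖)⁻¹ * F x * ‖x‖ = F x := by field_simp
    linarith

theorem Adm.at_scaled (hF : Adm F A B) {v w : E n} {l mu : ℝ} (hl : 0 < l) :
    F (l • v + mu • w) = l * F (v + (mu / l) • w) := by
  have := hF.homog l (v + (mu / l) • w)
  rw [smul_add, smul_smul, mul_div_cancel₀ _ hl.ne', abs_of_pos hl] at this
  exact this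

theorem norm_scaled {v w : E n} (hv : ‖v‖ = 1) (hw : ‖w‖ = 1) (hvw : inner ℝ v w = 0) {l mu : ℝ}
    (hl : 0 < l) : ‖l • v + mu • w‖ = l * √(1 + (mu / l) ^ 2) := by
  have h1 := norm_line hv hw hvw l mu
  rw [← Real.sqrt_sq (norm_nonneg (l • v + mu • w)), h1]
  have : l ^ 2 + mu ^ 2 = l ^ 2 * (1 + (mu / l) ^ 2) := by field_simp
  rw [this, Real.sqrt_mul (by positivity), Real.sqrt_sq hl.le]

/-- Slope inequalities. -/
theorem Adm.slope (hF : Adm F A B) (hn : 2 ≤ n) {v w : E n} (hv : ‖v‖ = 1) (hw : ‖w‖ = 1)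
    (hvw : inner ℝ v w = 0) {d R r : ℝ} (hd : HasDerivAt (fun t : ℝ => F (v + t • w)) d 0)
    (hR : ∀ u : E n, ‖u‖ = 1 → F u ≤ R) (hr : ∀ u : E n, ‖u‖ = 1 → r ≤ F u) :
    (F v - A) ^ 2 + d ^ 2 ≤ (R - A) ^ 2 ∧ (B - F v) ^ 2 + d ^ 2 ≤ (B - r) ^ 2 := by
  have hb := hF.bounds hn hv
  have hRA : 0 ≤ R - A := by linarith [hR v hv]
  have hBr : 0 ≤ B - r := by linarith [hr v hv]
  have fin : ∀ N2 Q : ℝ, 0 ≤ N2 → 0 ≤ Q → N2 ≤ Q * √N2 → N2 ≤ Q ^ 2 := by
    intro N2 Q h1 h2 h3
    rcases eq_or_lt_of_le h1 with h | h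
    · rw [← h]; positivity
    · have hs : 0 < √N2 := Real.sqrt_pos.mpr h
      have hs2 : √N2 * √N2 = N2 := Real.mul_self_sqrt h1
      have : √N2 ≤ Q := by
        by_contra hc
        push Not at hc
        have := mul_lt_mul_of_pos_right hc hs
        linarith
      nlinarith
  constructor
  · rcases eq_or_lt_of_le hb.1 with h | h
    · -- `F v = A`: minimum
      have hmin : IsLocalMin (fun t : ℝ => F (v + t • w) - A * √(1 + t ^ 2)) 0 := by
        refine Filter.Eventually.of_forall fun t => ?_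
        simp only [zero_smul, add_zero]
        have := (hF.bounds' hn (v + t • w)).1
        rw [norm_line' hv hw hvw] at this
        norm_num
        linarith
      have hder : HasDerivAt (fun t : ℝ => F (v + t • w) - A * √(1 + t ^ 2)) (d - A * (0 / √(1 + 0 ^ 2))) 0 :=
        hd.sub ((hasDerivAt_nrm 0).const_mul A)
      have := hmin.hasDerivAt_eq_zero hder
      simp at this
      rw [← h, this]; simp; positivity
    · set l := F v - A with hl
      have hl0 : 0 < l := by linarith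
      have h1 := (hF.tangent hv hw hvw hd (d / l)).1
      have h2 := hF.at_scaled (v := v) (w := w) (mu := d) hl0
      have h3 := norm_scaled hv hw hvw (mu := d) hl0
      have h4 := hF.le_mul hR (l • v + d • w)
      have h5 : l ^ 2 + d ^ 2 ≤ F (l • v + d • w) - A * ‖l • v + d • w‖ := by
        rw [h2, h3]
        have : l * (l + d / l * d) = l ^ 2 + d ^ 2 := by field_simp
        rw [← this]
        have := mul_le_mul_of_nonneg_left h1 hl0.le
        linarith
      have h6 : ‖l • v + d • w‖ = √(l ^ 2 + d ^ 2) := by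
        rw [← norm_line hv hw hvw l d, Real.sqrt_sq (norm_nonneg _)]
      rw [h6] at h5 h4
      exact fin _ _ (by positivity) hRA (by linarith)
  · rcases eq_or_lt_of_le hb.2 with h | h
    · have hmin : IsLocalMin (fun t : ℝ => B * √(1 + t ^ 2) - F (v + t • w)) 0 := by
        refine Filter.Eventually.of_forall fun t => ?_
        simp only [zero_smul, add_zero]
        have := (hF.bounds' hn (v + t • w)).2
        rw [norm_line' hv hw hvw] at this
        norm_num
        linarith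
      have hder : HasDerivAt (fun t : ℝ => B * √(1 + t ^ 2) - F (v + t • w)) (B * (0 / √(1 + 0 ^ 2)) - d) 0 :=
        ((hasDerivAt_nrm 0).const_mul B).sub hd
      have := hmin.hasDerivAt_eq_zero hder
      simp at this
      rw [h, this]; simp; positivity
    · set l := B - F v with hl
      have hl0 : 0 < l := by linarith
      have h1 := (hF.tangent hv hw hvw hd (-d / l)).2
      have h2 := hF.at_scaled (v := v) (w := w) (mu := -d) hl0
      have h3 := norm_scaled hv hw hvw (mu := -d) hl0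
      have h4 := hF.mul_le hr (l • v + (-d) • w)
      have h5 : l ^ 2 + d ^ 2 ≤ B * ‖l • v + (-d) • w‖ - F (l • v + (-d) • w) := by
        rw [h2, h3]
        have : l * (l - -d / l * d) = l ^ 2 + d ^ 2 := by field_simp; ring
        rw [← this]
        have := mul_le_mul_of_nonneg_left h1 hl0.le
        linarith
      have h6 : ‖l • v + (-d) • w‖ = √(l ^ 2 + d ^ 2) := by
        have := norm_line hv hw hvw l (-d)
        rw [neg_sq] at this
        rw [← this, Real.sqrt_sq (norm_nonneg _)]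
      rw [h6] at h5 h4
      exact fin _ _ (by positivity) hBr (by linarith)

end Pool.Agent.Helper73.HV
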