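import Pool.Agent.Helper73.HV.A2

/-!
# A3. The circumradius/inradius inequality and the second derivative along lines
-/

open MeasureTheory Set Metric Real
open scoped RealInnerProductSpace ENNReal
open Pool.Agent.Helper16.Buoy (E)

namespace Pool.Agent.Helper73.HV

variable {n : ℕ} {F : E n → ℝ} {A B : ℝ}

/-- Support inequalities at a critical point of `F` on the sphere. -/
theorem Adm.crit (hF : Adm F A B) (hn : 2 ≤ n) {u : E n} (hu : ‖u‖ = 1)
    (hz : ∀ w : E n, ‖w‖ = 1 → inner ℝ u w = 0 → HasDerivAt (fun t : ℝ => F (u + t • w)) 0 0)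
    (x : E n) :
    (F u - A) * |inner ℝ u x| ≤ F x - A * ‖x‖ ∧ (B - F u) * |inner ℝ u x| ≤ B * ‖x‖ - F x := by
  -- reduce to nonnegative inner product
  wlog hc : 0 ≤ inner ℝ u x generalizing x
  · have h := this (-x) (by rw [inner_neg_right]; linarith [not_le.mp hc])
    rw [hF.even, norm_neg, inner_neg_right, abs_neg] at h
    exact h
  set c := inner ℝ u x with hcd
  rw [abs_of_nonneg hc]
  have hb := hF.bounds' hn x
  rcases eq_or_lt_of_le hc with h0 | h0
  · rw [← h0]; constructor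
    · linarith
    · linarith
  set y := x - c • u with hy
  have hxy : x = c • u + y := by rw [hy]; abel
  have huy : inner ℝ u y = 0 := by
    rw [hy, inner_sub_right, inner_smul_right, real_inner_self_eq_norm_sq, hu, ← hcd]; ring
  rcases eq_or_ne y 0 with hy0 | hy0
  · have hx : x = c • u := by rw [hxy, hy0, add_zero]
    have h1 : F x = c * F u := by rw [hx, hF.homog, abs_of_pos h0]
    have h2 : ‖x‖ = c := by rw [hx, norm_smul, hu, mul_one, Real.norm_of_nonneg hc]
    rw [h1, h2]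
    constructor <;> linarith
  · have hyn : 0 < ‖y‖ := norm_pos_iff.mpr hy0
    set w := (‖y‖)⁻¹ • y with hw
    have hwn : ‖w‖ = 1 := norm_smul_inv_norm hy0
    have huw : inner ℝ u w = 0 := by rw [hw, inner_smul_right, huy, mul_zero]
    have hx : x = c • u + ‖y‖ • w := by
      rw [hw, smul_smul, mul_inv_cancel₀ hyn.ne', one_smul]; exact hxy
    have h1 := hF.tangent hu hwn huw (hz w hwn huw) (‖y‖ / c)
    have h2 := hF.at_scaled (v := u) (w := w) (mu := ‖y‖) h0
    have h3 := norm_scaled hu hwn huw (mu := ‖y‖) h0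
    rw [← hx] at h2 h3
    rw [h2, h3]
    constructor
    · have := mul_le_mul_of_nonneg_left h1.1 h0.le
      linarith
    · have := mul_le_mul_of_nonneg_left h1.2 h0.le
      linarith

/-- At a maximum point the derivatives vanish. -/
theorem Adm.deriv_max (hF : Adm F A B) {u : E n} (hu : ‖u‖ = 1)
    (hmax : ∀ v : E n, ‖v‖ = 1 → F v ≤ F u) (w : E n) (hw : ‖w‖ = 1) (huw : inner ℝ u w = 0) :
    HasDerivAt (fun t : ℝ => F (u + t • w)) 0 0 := by
  obtain ⟨d, hd⟩ := hF.exists_deriv hu hw huw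
  have hloc : IsLocalMax (fun t : ℝ => F (u + t • w) - F u * √(1 + t ^ 2)) 0 := by
    refine Filter.Eventually.of_forall fun t => ?_
    simp only [zero_smul, add_zero]
    have := hF.le_mul hmax (u + t • w)
    rw [norm_line' hu hw huw] at this
    norm_num
    linarith
  have hder : HasDerivAt (fun t : ℝ => F (u + t • w) - F u * √(1 + t ^ 2))
      (d - F u * (0 / √(1 + 0 ^ 2))) 0 := hd.sub ((hasDerivAt_nrm 0).const_mul (F u))
  have := hloc.hasDerivAt_eq_zero hder
  simp at this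
  rwa [this] at hd

theorem Adm.deriv_min (hF : Adm F A B) {u : E n} (hu : ‖u‖ = 1)
    (hmin : ∀ v : E n, ‖v‖ = 1 → F u ≤ F v) (w : E n) (hw : ‖w‖ = 1) (huw : inner ℝ u w = 0) :
    HasDerivAt (fun t : ℝ => F (u + t • w)) 0 0 := by
  obtain ⟨d, hd⟩ := hF.exists_deriv hu hw huw
  have hloc : IsLocalMin (fun t : ℝ => F (u + t • w) - F u * √(1 + t ^ 2)) 0 := by
    refine Filter.Eventually.of_forall fun t => ?_
    simp only [zero_smul, add_zero]
    have := hF.mul_le hmin (u + t • w)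
    rw [norm_line' hu hw huw] at this
    norm_num
    linarith
  have hder : HasDerivAt (fun t : ℝ => F (u + t • w) - F u * √(1 + t ^ 2))
      (d - F u * (0 / √(1 + 0 ^ 2))) 0 := hd.sub ((hasDerivAt_nrm 0).const_mul (F u))
  have := hloc.hasDerivAt_eq_zero hder
  simp at this
  rwa [this] at hd

/-- Existence of the extreme points and the circumradius/inradius inequality. -/
theorem Adm.radii (hF : Adm F A B) (hn : 2 ≤ n) :
    ∃ R r : ℝ, (∀ v : E n, ‖v‖ = 1 → F v ≤ R) ∧ (∀ v : E n, ‖v‖ = 1 → r ≤ F v) ∧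
      (∃ u : E n, ‖u‖ = 1 ∧ F u = R) ∧ (∃ u : E n, ‖u‖ = 1 ∧ F u = r) ∧
      (R - A) ^ 2 + (B - r) ^ 2 ≤ (B - A) ^ 2 := by
  obtain ⟨e, he, -⟩ := exists_perp hn (0 : E n)
  have hcomp : IsCompact (sphere (0 : E n) 1) := isCompact_sphere 0 1
  have hne : (sphere (0 : E n) 1).Nonempty := ⟨e, by simpa using he⟩
  obtain ⟨u1, hu1, hmax⟩ := hcomp.exists_isMaxOn hne hF.cont.continuousOn
  obtain ⟨u2, hu2, hmin⟩ := hcomp.exists_isMinOn hne hF.cont.continuousOn
  have hu1' : ‖u1‖ = 1 := by simpa using hu1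
  have hu2' : ‖u2‖ = 1 := by simpa using hu2
  have hmax' : ∀ v : E n, ‖v‖ = 1 → F v ≤ F u1 := fun v hv => hmax (by simpa using hv)
  have hmin' : ∀ v : E n, ‖v‖ = 1 → F u2 ≤ F v := fun v hv => hmin (by simpa using hv)
  refine ⟨F u1, F u2, hmax', hmin', ⟨u1, hu1', rfl⟩, ⟨u2, hu2', rfl⟩, ?_⟩
  set R1 := F u1 - A with hR1
  set R2 := B - F u2 with hR2
  have h1 : 0 ≤ R1 := by linarith [(hF.bounds hn hu1').1]
  have h2 : 0 ≤ R2 := by linarith [(hF.bounds hn hu2').2]
  have hD : 0 ≤ B - A := by linarith [(hF.bounds hn hu1').1, (hF.bounds hn hu1').2]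
  have k1 := fun x => (hF.crit hn hu1' (hF.deriv_max hu1' hmax') x).1
  have k2 := fun x => (hF.crit hn hu2' (hF.deriv_min hu2' hmin') x).2
  -- choose the sign
  obtain ⟨ε, hε, hε2, hε1⟩ : ∃ ε : ℝ, 0 ≤ ε * inner ℝ u1 u2 ∧ ε ^ 2 = 1 ∧ |ε| = 1 := by
    rcases le_total 0 (inner ℝ u1 u2) with h | h
    · exact ⟨1, by linarith, by norm_num, by norm_num⟩
    · exact ⟨-1, by linarith, by norm_num, by norm_num⟩
  set x := R1 • u1 + (ε * R2) • u2 with hx
  have e1 : inner ℝ u1 x = R1 + ε * R2 * inner ℝ u1 u2 := by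
    rw [hx, inner_add_right, inner_smul_right, inner_smul_right, real_inner_self_eq_norm_sq, hu1']
    ring
  have e2 : inner ℝ u2 x = R1 * inner ℝ u1 u2 + ε * R2 := by
    rw [hx, inner_add_right, inner_smul_right, inner_smul_right, real_inner_self_eq_norm_sq, hu2',
      real_inner_comm]
    ring
  have e3 : ‖x‖ ^ 2 = R1 ^ 2 + R2 ^ 2 + 2 * R1 * R2 * (ε * inner ℝ u1 u2) := by
    rw [← real_inner_self_eq_norm_sq]
    nth_rewrite 1 [hx]
    rw [inner_add_left, inner_smul_left, inner_smul_left, e1, e2]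
    simp only [conj_trivial]
    linear_combination R2 ^ 2 * hε2
  have e4 : ‖x‖ ^ 2 ≤ R1 * |inner ℝ u1 x| + R2 * |inner ℝ u2 x| := by
    have a1 : R1 * inner ℝ u1 x ≤ R1 * |inner ℝ u1 x| := mul_le_mul_of_nonneg_left (le_abs_self _) h1
    have a2 : R2 * (ε * inner ℝ u2 x) ≤ R2 * |inner ℝ u2 x| := by
      apply mul_le_mul_of_nonneg_left _ h2
      calc ε * inner ℝ u2 x ≤ |ε * inner ℝ u2 x| := le_abs_self _
        _ = |inner ℝ u2 x| := by rw [abs_mul, hε1, one_mul]
    rw [e3]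
    rw [e1] at a1
    rw [e2] at a2
    rw [e1, e2]
    nlinarith [a1, a2]
  have e5 : R1 * |inner ℝ u1 x| + R2 * |inner ℝ u2 x| ≤ (B - A) * ‖x‖ := by
    have := k1 x
    have := k2 x
    linarith
  have e6 : ‖x‖ ≤ B - A := by
    rcases eq_or_lt_of_le (norm_nonneg x) with h | h
    · rw [← h]; exact hD
    · have : ‖x‖ * ‖x‖ ≤ (B - A) * ‖x‖ := by nlinarith
      exact le_of_mul_le_mul_right this h
  have e7 : R1 ^ 2 + R2 ^ 2 ≤ ‖x‖ ^ 2 := by
    rw [e3]
    have : 0 ≤ 2 * R1 * R2 * (ε * inner ℝ u1 u2) := by positivity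
    linarith
  calc R1 ^ 2 + R2 ^ 2 ≤ ‖x‖ ^ 2 := e7
    _ ≤ (B - A) ^ 2 := by gcongr

/-- The rotated frame. -/
theorem frame {v w : E n} (hv : ‖v‖ = 1) (hw : ‖w‖ = 1) (hvw : inner ℝ v w = 0) (t : ℝ) :
    ‖(√(1 + t ^ 2))⁻¹ • (v + t • w)‖ = 1 ∧ ‖(√(1 + t ^ 2))⁻¹ • (w - t • v)‖ = 1 ∧
      inner ℝ ((√(1 + t ^ 2))⁻¹ • (v + t • w)) ((√(1 + t ^ 2))⁻¹ • (w - t • v)) = 0 := by
  have hs : 0 < √(1 + t ^ 2) := Real.sqrt_pos.mpr (one_add_sq_pos t)
  have h1 := norm_line' hv hw hvw t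
  have hwv : inner ℝ w v = 0 := by rw [real_inner_comm]; exact hvw
  have h2 := norm_line' hw hv hwv (-t)
  rw [neg_smul, ← sub_eq_add_neg, neg_sq] at h2
  refine ⟨?_, ?_, ?_⟩
  · rw [norm_smul, h1, norm_inv, Real.norm_of_nonneg hs.le, inv_mul_cancel₀ hs.ne']
  · rw [norm_smul, h2, norm_inv, Real.norm_of_nonneg hs.le, inv_mul_cancel₀ hs.ne']
  · rw [inner_smul_left, inner_smul_right, inner_add_left, inner_sub_right, inner_sub_right,
      inner_smul_left, inner_smul_left, inner_smul_right, inner_smul_right, hvw, hwv,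
      real_inner_self_eq_norm_sq, real_inner_self_eq_norm_sq, hv, hw]
    simp

/-- The second derivative of `F²/2` along a line is the quadratic form of a state. -/
theorem Adm.line (hF : Adm F A B) {v w : E n} (hv : ‖v‖ = 1) (hw : ‖w‖ = 1)
    (hvw : inner ℝ v w = 0) :
    ∃ f' f'' : ℝ → ℝ, (∀ t, HasDerivAt (fun t : ℝ => F (v + t • w) ^ 2 / 2) (f' t) t) ∧
      (∀ t, HasDerivAt f' (f'' t) t) ∧
      ∀ t, ∃ (v' w' : E n) (d m c s : ℝ), ‖v'‖ = 1 ∧ ‖w'‖ = 1 ∧ inner ℝ v' w' = 0 ∧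
        HasDerivAt (fun τ : ℝ => F (v' + τ • w')) d 0 ∧ A ≤ m ∧ m ≤ B ∧ c ^ 2 + s ^ 2 = 1 ∧
        f'' t = (c * F v' + s * d) ^ 2 + F v' * m * s ^ 2 := by
  obtain ⟨g', m, h1, h2, h3⟩ := hF.ode v w hv hw hvw
  refine ⟨fun t => F (v + t • w) * g' t,
    fun t => g' t * g' t + F (v + t • w) * (m t / (√(1 + t ^ 2)) ^ 3), ?_, ?_, ?_⟩
  · intro t
    have := ((h1 t).pow 2).div_const 2
    refine this.congr_deriv ?_
    simp; ring
  · intro t
    exact (h1 t).mul (h2 t)
  · intro t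
    have hs : 0 < √(1 + t ^ 2) := Real.sqrt_pos.mpr (one_add_sq_pos t)
    have hs2 : √(1 + t ^ 2) ^ 2 = 1 + t ^ 2 := Real.sq_sqrt (one_add_sq_pos t).le
    set r := √(1 + t ^ 2) with hr
    obtain ⟨n1, n2, n3⟩ := frame hv hw hvw t
    rw [← hr] at n1 n2 n3
    have hy : F (r⁻¹ • (v + t • w)) = r⁻¹ * F (v + t • w) := by
      rw [hF.homog, abs_of_pos (by positivity)]
    refine ⟨r⁻¹ • (v + t • w), r⁻¹ • (w - t • v), r * g' t - t * (r⁻¹ * F (v + t • w)), m t, t / r,
      1 / r, n1, n2, n3, ?_, (h3 t).1, (h3 t).2, ?_, ?_⟩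
    · -- the derivative in the rotated frame
      have hev : (fun τ : ℝ => r⁻¹ * ((1 - τ * t) * F (v + ((t + τ) / (1 - τ * t)) • w)))
          =ᶠ[nhds 0] (fun τ : ℝ => F (r⁻¹ • (v + t • w) + τ • (r⁻¹ • (w - t • v)))) := by
        have : ∀ᶠ τ : ℝ in nhds 0, 0 < 1 - τ * t := by
          have hc : Continuous (fun τ : ℝ => 1 - τ * t) := by fun_prop
          have := hc.tendsto 0
          simp only [zero_mul, sub_zero] at this
          exact this.eventually (lt_mem_nhds one_pos)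
        filter_upwards [this] with τ hτ
        have e1 : r⁻¹ • (v + t • w) + τ • (r⁻¹ • (w - t • v))
            = r⁻¹ • ((1 - τ * t) • v + (t + τ) • w) := by
          simp only [smul_add, smul_sub, smul_smul, sub_smul, add_smul, one_smul]
          have a1 : τ * r⁻¹ = r⁻¹ * τ := mul_comm _ _
          have a2 : τ * (r⁻¹ * t) = r⁻¹ * (τ * t) := by ring
          rw [a1, a2]
          abel
        rw [e1, hF.homog, abs_of_pos (by positivity), hF.at_scaled hτ]
      refine HasDerivAt.congr_of_eventuallyEq ?_ hev.symm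
      have d1 : HasDerivAt (fun τ : ℝ => 1 - τ * t) (-t) 0 := by
        have := ((hasDerivAt_id (0:ℝ)).mul_const t).const_sub 1
        refine this.congr_deriv ?_
        simp
      have d2 : HasDerivAt (fun τ : ℝ => (t + τ) / (1 - τ * t)) (1 + t ^ 2) 0 := by
        have a1 : HasDerivAt (fun τ : ℝ => t + τ) 1 0 := (hasDerivAt_id (0:ℝ)).const_add t
        have := a1.div d1 (by simp)
        refine this.congr_deriv ?_
        simp; ring
      have d3 : HasDerivAt (fun τ : ℝ => F (v + ((t + τ) / (1 - τ * t)) • w)) (g' t * (1 + t ^ 2)) 0 := by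
        have h1t : HasDerivAt (fun t => F (v + t • w)) (g' t) ((t + 0) / (1 - 0 * t)) := by
          have : (t + 0) / (1 - 0 * t) = t := by simp
          rw [this]; exact h1 t
        exact HasDerivAt.comp (0:ℝ) h1t d2
      have d4 := (d1.mul d3).const_mul r⁻¹
      refine d4.congr_deriv ?_
      simp only [add_zero, zero_mul, sub_zero, div_one, one_mul]
      have hr2 : 1 + t ^ 2 = r ^ 2 := hs2.symm
      rw [hr2]
      field_simp
      ring
    · rw [div_pow, div_pow, hs2]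
      field_simp
      ring
    · rw [hy]
      have e : t / r * (r⁻¹ * F (v + t • w)) + 1 / r * (r * g' t - t * (r⁻¹ * F (v + t • w))) = g' t := by
        field_simp
        ring
      rw [e]
      beta_reduce
      rw [← hr]
      field_simp

end Pool.Agent.Helper73.HV
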