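import Pool.Agent.Helper73.HV.A3

/-!
# A4. Hessian contraction
-/

open MeasureTheory Set Metric Real
open scoped RealInnerProductSpace ENNReal
open Pool.Agent.Helper16.Buoy (E)

namespace Pool.Agent.Helper73.HV

variable {n : ℕ} {F : E n → ℝ} {A B : ℝ}

/-- From the lines `v + t w` to all second differences. -/
theorem Adm.sd_general (hF : Adm F A B) (hn : 2 ≤ n) {gm gp : ℝ}
    (h : ∀ v w : E n, ‖v‖ = 1 → ‖w‖ = 1 → inner ℝ v w = 0 → ∀ t h : ℝ,
      gm * h ^ 2 ≤ sd (fun t : ℝ => F (v + t • w) ^ 2 / 2) t h ∧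
        sd (fun t : ℝ => F (v + t • w) ^ 2 / 2) t h ≤ gp * h ^ 2) (x z : E n) :
    gm * ‖z‖ ^ 2 ≤ sd (fun x => F x ^ 2 / 2) x z ∧
      sd (fun x => F x ^ 2 / 2) x z ≤ gp * ‖z‖ ^ 2 := by
  rcases eq_or_ne z 0 with rfl | hz
  · simp [sd]; constructor <;> linarith
  have hz0 : 0 < ‖z‖ := norm_pos_iff.mpr hz
  set w := (‖z‖)⁻¹ • z with hw
  have hwn : ‖w‖ = 1 := norm_smul_inv_norm hz
  have hzw : z = ‖z‖ • w := by rw [hw, smul_smul, mul_inv_cancel₀ hz0.ne', one_smul]
  -- the case where `x` has a component orthogonal to `w`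
  have main : ∀ x : E n, x - (inner ℝ w x) • w ≠ 0 →
      gm * ‖z‖ ^ 2 ≤ sd (fun x => F x ^ 2 / 2) x z ∧
      sd (fun x => F x ^ 2 / 2) x z ≤ gp * ‖z‖ ^ 2 := by
    intro x hy0
    set a := inner ℝ w x with ha
    set y := x - a • w with hy
    have hyn : 0 < ‖y‖ := norm_pos_iff.mpr hy0
    set v := (‖y‖)⁻¹ • y with hv
    have hvn : ‖v‖ = 1 := norm_smul_inv_norm hy0
    have hyv : y = ‖y‖ • v := by rw [hv, smul_smul, mul_inv_cancel₀ hyn.ne', one_smul]
    have hvw : inner ℝ v w = 0 := by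
      rw [hv, inner_smul_left, hy, inner_sub_left, inner_smul_left, real_inner_self_eq_norm_sq, hwn,
        real_inner_comm, ← ha]
      simp
    have hx : x = ‖y‖ • v + a • w := by rw [← hyv, hy]; abel
    have hk := h v w hvn hwn hvw (a / ‖y‖) (‖z‖ / ‖y‖)
    have f0 : F x = ‖y‖ * F (v + (a / ‖y‖) • w) := by
      conv_lhs => rw [hx]
      exact hF.at_scaled hyn
    have f1 : F (x + z) = ‖y‖ * F (v + (a / ‖y‖ + ‖z‖ / ‖y‖) • w) := by
      have : x + z = ‖y‖ • v + (a + ‖z‖) • w := by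
        rw [add_smul, ← add_assoc, ← hx, ← hzw]
      rw [this, hF.at_scaled hyn, add_div]
    have f2 : F (x - z) = ‖y‖ * F (v + (a / ‖y‖ - ‖z‖ / ‖y‖) • w) := by
      have : x - z = ‖y‖ • v + (a - ‖z‖) • w := by
        rw [sub_smul, ← add_sub_assoc, ← hx, ← hzw]
      rw [this, hF.at_scaled hyn, sub_div]
    have e : sd (fun x => F x ^ 2 / 2) x z
        = ‖y‖ ^ 2 * sd (fun t : ℝ => F (v + t • w) ^ 2 / 2) (a / ‖y‖) (‖z‖ / ‖y‖) := by
      simp only [sd]
      rw [f0, f1, f2]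
      ring
    rw [e]
    have e2 : ‖y‖ ^ 2 * (‖z‖ / ‖y‖) ^ 2 = ‖z‖ ^ 2 := by field_simp
    have hy2 : 0 ≤ ‖y‖ ^ 2 := by positivity
    constructor
    · have := mul_le_mul_of_nonneg_left hk.1 hy2
      calc gm * ‖z‖ ^ 2 = ‖y‖ ^ 2 * (gm * (‖z‖ / ‖y‖) ^ 2) := by rw [← e2]; ring
        _ ≤ _ := this
    · have := mul_le_mul_of_nonneg_left hk.2 hy2
      calc _ ≤ ‖y‖ ^ 2 * (gp * (‖z‖ / ‖y‖) ^ 2) := this
        _ = _ := by rw [← e2]; ring
  by_cases hy0 : x - (inner ℝ w x) • w ≠ 0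
  · exact main x hy0
  · push Not at hy0
    obtain ⟨v, hv, hvw⟩ := exists_perp hn w
    have hwv : inner ℝ w v = 0 := by rw [real_inner_comm]; exact hvw
    have hne : ∀ e : ℝ, 0 < e → (x + e • v) - (inner ℝ w (x + e • v)) • w ≠ 0 := by
      intro e he h0
      rw [inner_add_right, inner_smul_right, hwv, mul_zero, add_zero] at h0
      have : x + e • v - (inner ℝ w x) • w = e • v := by
        have : x + e • v - (inner ℝ w x) • w = (x - (inner ℝ w x) • w) + e • v := by abel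
        rw [this, hy0, zero_add]
      rw [this] at h0
      have := smul_eq_zero.mp h0
      rcases this with h | h
      · exact he.ne' h
      · rw [h, norm_zero] at hv; exact zero_ne_one hv
    have hcont := hF.cont
    have ht : Filter.Tendsto (fun e : ℝ => sd (fun x => F x ^ 2 / 2) (x + e • v) z)
        (nhdsWithin 0 (Ioi 0)) (nhds (sd (fun x => F x ^ 2 / 2) x z)) := by
      have hc : Continuous (fun e : ℝ => sd (fun x => F x ^ 2 / 2) (x + e • v) z) := by
        unfold sd; fun_prop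
      have := hc.tendsto 0
      simp only [zero_smul, add_zero] at this
      exact this.mono_left nhdsWithin_le_nhds
    constructor
    · exact ge_of_tendsto ht (Filter.eventually_of_mem self_mem_nhdsWithin fun e he =>
        (main _ (hne e he)).1)
    · exact le_of_tendsto ht (Filter.eventually_of_mem self_mem_nhdsWithin fun e he =>
        (main _ (hne e he)).2)

/-- From state bounds to second differences. -/
theorem Adm.sd_of_states (hF : Adm F A B) (hn : 2 ≤ n) {gm gp : ℝ}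
    (h : ∀ (v w : E n) (d m c s : ℝ), ‖v‖ = 1 → ‖w‖ = 1 → inner ℝ v w = 0 →
      HasDerivAt (fun τ : ℝ => F (v + τ • w)) d 0 → A ≤ m → m ≤ B → c ^ 2 + s ^ 2 = 1 →
      gm ≤ (c * F v + s * d) ^ 2 + F v * m * s ^ 2 ∧
        (c * F v + s * d) ^ 2 + F v * m * s ^ 2 ≤ gp) (x z : E n) :
    gm * ‖z‖ ^ 2 ≤ sd (fun x => F x ^ 2 / 2) x z ∧
      sd (fun x => F x ^ 2 / 2) x z ≤ gp * ‖z‖ ^ 2 := by
  refine hF.sd_general hn (fun v w hv hw hvw t τ => ?_) x z
  obtain ⟨f', f'', h1, h2, h3⟩ := hF.line hv hw hvw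
  refine sd_two_bounds h1 h2 (fun t => ?_) (fun t => ?_) t τ
  · obtain ⟨v', w', d, m, c, s, a1, a2, a3, a4, a5, a6, a7, a8⟩ := h3 t
    rw [a8]; exact (h v' w' d m c s a1 a2 a3 a4 a5 a6 a7).1
  · obtain ⟨v', w', d, m, c, s, a1, a2, a3, a4, a5, a6, a7, a8⟩ := h3 t
    rw [a8]; exact (h v' w' d m c s a1 a2 a3 a4 a5 a6 a7).2

/-- The contraction for `B ≤ 10 A`. -/
theorem hess_small (hn : 2 ≤ n) (hF : Adm F A B) (hA : 0 < A) (hAB : A < B) (hk : B ≤ 10 * A) :
    ∃ gm gp : ℝ, 0 < gm ∧ 0 < gp ∧ gp * A ^ 2 < gm * B ^ 2 ∧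
      ∀ x z, gm * ‖z‖ ^ 2 ≤ sd (fun x => F x ^ 2 / 2) x z ∧
        sd (fun x => F x ^ 2 / 2) x z ≤ gp * ‖z‖ ^ 2 := by
  have hB : 0 < B := hA.trans hAB
  obtain ⟨R, r, hR, hr, ⟨u1, hu1, hu1R⟩, ⟨u2, hu2, hu2r⟩, hQ⟩ := hF.radii hn
  have hRA : 0 ≤ R - A := by
    have := (hF.bounds hn hu1).1; linarith
  have hBr : 0 ≤ B - r := by
    have := (hF.bounds hn hu2).2; linarith
  have hrA : A ≤ r := by
    have := (hF.bounds hn hu2).1; linarith
  obtain ⟨th, hth, e1⟩ := exists_th hA hB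
  obtain ⟨th', hth', e2⟩ := exists_th hB hA
  have c1 := const_lt hA hB hAB.ne hth e1
  have c2 := const_lt hB hA hAB.ne' hth' e2
  obtain ⟨g, hg, hg2⟩ := upper_level hA c1 hRA
  obtain ⟨l, hl0, hl, hl2⟩ := lower_level c2 hBr (by linarith)
  have hg0 : 0 < g := by linarith
  have hlt := levels_lt hA hAB hk hth hth' e1 e2 hQ hg0 hl0 hg2 hl2
  refine ⟨l ^ 2, g ^ 2, by positivity, by positivity, ?_, ?_⟩
  · have : (g * A) ^ 2 < (l * B) ^ 2 := by
      have h0 : 0 < g * A := by positivity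
      nlinarith
    nlinarith
  · refine hF.sd_of_states hn ?_
    intro v w d m c s hv hw hvw hd hm1 hm2 hcs
    have hb := hF.bounds hn hv
    have hsl := hF.slope hn hv hw hvw hd hR hr
    have hy0 : 0 ≤ F v := by linarith [hb.1]
    constructor
    · exact state_lo hA hth' e2 hl0 hl2 (by linarith [hr v hv]) hsl.2 hm1 hcs
    · exact state_up hB hth e1 hg0 hg2 hy0 (by linarith [hR v hv]) hsl.1 hm2 hcs

/-- The contraction when the values on the sphere are within a factor `√2`. -/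
theorem hess_large (hn : 2 ≤ n) (hF : Adm F A B) (hA : 0 < A) (hk : 10 * A < B)
    (hu : ∀ u v : E n, ‖u‖ = 1 → ‖v‖ = 1 → F u ≤ √2 * F v) :
    ∃ gm gp : ℝ, 0 < gm ∧ 0 < gp ∧ gp * A ^ 2 < gm * B ^ 2 ∧
      ∀ x z, gm * ‖z‖ ^ 2 ≤ sd (fun x => F x ^ 2 / 2) x z ∧
        sd (fun x => F x ^ 2 / 2) x z ≤ gp * ‖z‖ ^ 2 := by
  have hB : 0 < B := by linarith
  obtain ⟨R, r, hR, hr, ⟨u1, hu1, hu1R⟩, ⟨u2, hu2, hu2r⟩, hQ⟩ := hF.radii hn
  have hRA : 0 ≤ R - A := by
    have := (hF.bounds hn hu1).1; linarith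
  have hRB : R ≤ B := by
    have := (hF.bounds hn hu1).2; linarith
  have hrA : A ≤ r := by
    have := (hF.bounds hn hu2).1; linarith
  have hRr : R ≤ √2 * r := by
    have := hu u1 u2 hu1 hu2; rwa [hu1R, hu2r] at this
  have hs2 : √2 ^ 2 = 2 := Real.sq_sqrt (by norm_num)
  have hs0 : 0 < √2 := Real.sqrt_pos.mpr (by norm_num)
  have hs1 : √2 < 3 / 2 := by
    rw [Real.sqrt_lt' (by norm_num)]; norm_num
  have hr0 : 0 < r := by linarith
  have hR0 : 0 < R := by linarith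
  have hR2 : R ^ 2 ≤ 2 * r ^ 2 := by
    calc R ^ 2 ≤ (√2 * r) ^ 2 := by gcongr
      _ = 2 * r ^ 2 := by rw [mul_pow, hs2]
  refine ⟨r * A / 3, 2 * R * B, by positivity, by positivity, ?_, ?_⟩
  · -- `6 R A < r B`
    have h1 : 6 * R * A < r * B := by
      have : 6 * R * A ≤ 9 * r * A := by nlinarith
      nlinarith
    nlinarith [mul_lt_mul_of_pos_right h1 (mul_pos hA hB)]
  · refine hF.sd_of_states hn ?_
    intro v w d m c s hv hw hvw hd hm1 hm2 hcs
    have hb := hF.bounds hn hv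
    have hsl := hF.slope hn hv hw hvw hd hR hr
    set y := F v with hy
    have hyR := hR v hv
    have hyr := hr v hv
    have hyA : A ≤ y := by linarith
    have hy0 : 0 < y := by linarith
    have hp : y ^ 2 + d ^ 2 ≤ R ^ 2 := by nlinarith [hsl.1]
    have hs : s ^ 2 ≤ 1 := by nlinarith [sq_nonneg c]
    constructor
    · have hd2 : d ^ 2 ≤ y ^ 2 := by nlinarith
      have hmu1 : r * A / 3 ≤ y ^ 2 / 3 := by nlinarith
      have hmu2 : r * A / 3 ≤ y * A / 3 := by nlinarith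
      refine form_lo hcs (by nlinarith) ?_
      have a1 : 2 * y ^ 2 / 3 ≤ y ^ 2 - r * A / 3 := by linarith
      have a2 : 2 * (y * A) / 3 ≤ y * m - r * A / 3 := by nlinarith
      calc r * A / 3 * d ^ 2 ≤ y * A / 3 * y ^ 2 := by
            apply mul_le_mul hmu2 hd2 (sq_nonneg _) (by positivity)
        _ ≤ (2 * y ^ 2 / 3) * (2 * (y * A) / 3) := by
            have : 0 ≤ y ^ 2 * (y * A) := by positivity
            nlinarith
        _ ≤ _ := mul_le_mul a1 a2 (by positivity) (by nlinarith [sq_nonneg y])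
    · have a1 : (c * y + s * d) ^ 2 ≤ y ^ 2 + d ^ 2 := by
        nlinarith [sq_nonneg (c * d - s * y)]
      have a2 : y * m * s ^ 2 ≤ R * B := by
        calc y * m * s ^ 2 ≤ y * m * 1 := by
              apply mul_le_mul_of_nonneg_left hs
              have : 0 ≤ m := by linarith
              positivity
          _ = y * m := mul_one _
          _ ≤ R * B := mul_le_mul hyR hm2 (by linarith) hR0.le
      nlinarith

theorem hess : S_hess := by
  intro n hn F A B hF hA hAB hk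
  rcases le_or_gt B (10 * A) with h | h
  · exact hess_small hn hF hA hAB h
  · rcases hk with hk | hk
    · exact absurd hk (not_le.mpr h)
    · exact hess_large hn hF hA h hk

theorem hess_crude : S_hess_crude := by
  intro n hn F A B hF hA
  obtain ⟨R, r, hR, hr, ⟨u1, hu1, hu1R⟩, ⟨u2, hu2, hu2r⟩, hQ⟩ := hF.radii hn
  have hAB : A ≤ B := (hF.bounds hn hu1).1.trans (hF.bounds hn hu1).2
  have hB : 0 < B := hA.trans_le hAB
  refine ⟨A ^ 4 / (4 * B ^ 2), 2 * B ^ 2, by positivity, by positivity, ?_⟩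
  refine hF.sd_of_states hn ?_
  intro v w d m c s hv hw hvw hd hm1 hm2 hcs
  have hb := hF.bounds hn hv
  have hsl := hF.slope hn hv hw hvw hd (R := B) (r := A) (fun u hu => (hF.bounds hn hu).2)
    (fun u hu => (hF.bounds hn hu).1)
  set y := F v with hy
  have hy0 : 0 < y := by linarith
  have hp : y ^ 2 + d ^ 2 ≤ B ^ 2 := by nlinarith [hsl.1]
  have hs : s ^ 2 ≤ 1 := by nlinarith [sq_nonneg c]
  have hmu : A ^ 4 / (4 * B ^ 2) ≤ A ^ 2 / 4 := by
    rw [div_le_div_iff₀ (by positivity) (by norm_num)]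
    have : A ^ 2 ≤ B ^ 2 := by gcongr
    nlinarith [mul_le_mul_of_nonneg_left this (sq_nonneg A)]
  constructor
  · have hyA : A ^ 2 ≤ y ^ 2 := by gcongr; exact hb.1
    have hyA2 : A ^ 2 ≤ y * m := by nlinarith
    refine form_lo hcs (by nlinarith) ?_
    calc A ^ 4 / (4 * B ^ 2) * d ^ 2 ≤ A ^ 4 / (4 * B ^ 2) * B ^ 2 := by
          apply mul_le_mul_of_nonneg_left _ (by positivity); nlinarith [sq_nonneg y]
      _ = A ^ 4 / 4 := by field_simp
      _ ≤ (3 * A ^ 2 / 4) * (3 * A ^ 2 / 4) := by nlinarith [pow_pos hA 4]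
      _ ≤ _ := mul_le_mul (by linarith) (by linarith) (by positivity) (by nlinarith)
  · have a1 : (c * y + s * d) ^ 2 ≤ y ^ 2 + d ^ 2 := by
      nlinarith [sq_nonneg (c * d - s * y)]
    have a2 : y * m * s ^ 2 ≤ B * B := by
      calc y * m * s ^ 2 ≤ y * m * 1 := by
            apply mul_le_mul_of_nonneg_left hs
            have : 0 ≤ m := by linarith
            positivity
        _ = y * m := mul_one _
        _ ≤ B * B := mul_le_mul hb.2 hm2 (by linarith) hB.le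
    nlinarith

end Pool.Agent.Helper73.HV
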