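import Mathlib
import Pool.Agent.Helper16.Buoy.Stmt

/-!
# Half volume case of the homothety problem for the body of buoyancy: definitions

Blueprint: see `MP_a2630c_HV_blueprint.md` in the team store.
-/

open MeasureTheory Set Metric Real
open scoped RealInnerProductSpace ENNReal
open Pool.Agent.Helper16.Buoy (E)

namespace Pool.Agent.Helper73.HV

/-- Second difference. -/
def sd {V : Type*} [AddCommGroup V] (f : V → ℝ) (x z : V) : ℝ := f (x + z) + f (x - z) - 2 * f x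

/-- An even continuous potential with quadratic bounds. -/
structure Wt {n : ℕ} (Ψ : E n → ℝ) (a b : ℝ) : Prop where
  cont : Continuous Ψ
  even : ∀ x, Ψ (-x) = Ψ x
  apos : 0 < a
  lo : ∀ x, a * ‖x‖ ^ 2 ≤ Ψ x
  up : ∀ x, Ψ x ≤ b * ‖x‖ ^ 2

/-- Isotropy of the weight `exp (-Ψ)`. -/
def Iso {n : ℕ} (Ψ : E n → ℝ) (Z : ℝ) : Prop :=
  ∀ u, ∫ x, (inner ℝ u x) ^ 2 * exp (-Ψ x) = Z * ‖u‖ ^ 2

/-- The first absolute moment of the weight `exp (-Ψ)` in direction `u`. -/
noncomputable def FF {n : ℕ} (Ψ : E n → ℝ) (u : E n) : ℝ := ∫ x, |inner ℝ u x| * exp (-Ψ x)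

/-- Coordinates adapted to an orthonormal basis. -/
noncomputable def slc {m : ℕ} (b : OrthonormalBasis (Fin (m + 2)) ℝ (E (m + 2)))
    (p : ℝ × ℝ × (Fin m → ℝ)) : E (m + 2) :=
  p.1 • b 0 + p.2.1 • b 1 + ∑ i, p.2.2 i • b i.succ.succ

/-- Second moment in direction `b 1` of the weight on the hyperplane orthogonal to `b 0`. -/
noncomputable def JJ {m : ℕ} (Ψ : E (m + 2) → ℝ) (b : OrthonormalBasis (Fin (m + 2)) ℝ (E (m + 2))) :
    ℝ :=
  ∫ y : ℝ × (Fin m → ℝ), y.1 ^ 2 * exp (-Ψ (slc b (0, y)))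

/-- Admissible functions: even, positively homogeneous, `C²` along the lines `v + t w` with
`v ⟂ w` unit, with second derivative between `A` and `B` times that of the norm. -/
structure Adm {n : ℕ} (F : E n → ℝ) (A B : ℝ) : Prop where
  homog : ∀ (c : ℝ) x, F (c • x) = |c| * F x
  cont : Continuous F
  ode : ∀ v w : E n, ‖v‖ = 1 → ‖w‖ = 1 → inner ℝ v w = 0 → ∃ g' m : ℝ → ℝ,
    (∀ t, HasDerivAt (fun t => F (v + t • w)) (g' t) t) ∧
    (∀ t, HasDerivAt g' (m t / (√(1 + t ^ 2)) ^ 3) t) ∧ (∀ t, A ≤ m t ∧ m t ≤ B)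

/-- Half the square of the gauge of `K`. -/
noncomputable def gau {n : ℕ} (K : Set (E n)) (x : E n) : ℝ := (gauge K x) ^ 2 / 2

/-- Support function. -/
noncomputable def supp {n : ℕ} (K : Set (E n)) (u : E n) : ℝ := sSup ((fun x => inner ℝ u x) '' K)

/-- A symmetric convex body. -/
structure SBody {n : ℕ} (K : Set (E n)) : Prop where
  conv : Convex ℝ K
  comp : IsCompact K
  int : (interior K).Nonempty
  symm : ∀ x ∈ K, -x ∈ K

end Pool.Agent.Helper73.HV
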