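import Pool.Agent.Helper73.HV.A4
import Pool.Agent.Helper73.HV.Base

/-!
# K. Assembly: an isotropic symmetric solution is a ball
-/

open MeasureTheory Set Metric Real
open scoped RealInnerProductSpace ENNReal
open Pool.Agent.Helper16.Buoy (E)

namespace Pool.Agent.Helper73.HV

/-- Scaling of second differences of squares. -/
theorem sd_scale {n : ℕ} {F h : E n → ℝ} {c : ℝ} (hh : ∀ u, h u = c * F u) (x z : E n) :
    sd (fun u => h u ^ 2 / 2) x z = c ^ 2 * sd (fun u => F u ^ 2 / 2) x z := by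
  simp only [sd, hh]; ring

/-- The best lower constant. -/
theorem best_lo {n : ℕ} {Ψ : E n → ℝ} (hex : ∃ z : E n, z ≠ 0) {b : ℝ}
    (hup : ∀ x z, sd Ψ x z ≤ b * ‖z‖ ^ 2) {a : ℝ} (ha : 0 < a)
    (hlo : ∀ x z, a * ‖z‖ ^ 2 ≤ sd Ψ x z) :
    ∃ α : ℝ, 0 < α ∧ (∀ x z, α * ‖z‖ ^ 2 ≤ sd Ψ x z) ∧
      ∀ α', (∀ x z, α' * ‖z‖ ^ 2 ≤ sd Ψ x z) → α' ≤ α := by
  set S := {α : ℝ | ∀ x z, α * ‖z‖ ^ 2 ≤ sd Ψ x z} with hS
  obtain ⟨z0, hz0⟩ := hex
  have hz0' : 0 < ‖z0‖ := norm_pos_iff.mpr hz0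
  have hbdd : BddAbove S := by
    refine ⟨b, fun α hα => ?_⟩
    have h1 := (hα 0 z0).trans (hup 0 z0)
    exact le_of_mul_le_mul_right h1 (by positivity)
  have hne : a ∈ S := hlo
  refine ⟨sSup S, ha.trans_le (le_csSup hbdd hne), ?_, fun α' h => le_csSup hbdd h⟩
  intro x z
  rcases eq_or_ne z 0 with rfl | hz
  · simp [sd]; linarith
  · have hz' : 0 < ‖z‖ ^ 2 := by have := norm_pos_iff.mpr hz; positivity
    rw [← le_div_iff₀ hz']
    refine csSup_le ⟨a, hne⟩ fun α hα => ?_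
    rw [le_div_iff₀ hz']
    exact hα x z

/-- The best upper constant. -/
theorem best_up {n : ℕ} {Ψ : E n → ℝ} (hex : ∃ z : E n, z ≠ 0) {b : ℝ}
    (hup : ∀ x z, sd Ψ x z ≤ b * ‖z‖ ^ 2) {a : ℝ}
    (hlo : ∀ x z, a * ‖z‖ ^ 2 ≤ sd Ψ x z) :
    ∃ β : ℝ, a ≤ β ∧ (∀ x z, sd Ψ x z ≤ β * ‖z‖ ^ 2) ∧
      ∀ β', (∀ x z, sd Ψ x z ≤ β' * ‖z‖ ^ 2) → β ≤ β' := by
  set S := {β : ℝ | ∀ x z, sd Ψ x z ≤ β * ‖z‖ ^ 2} with hS
  obtain ⟨z0, hz0⟩ := hex
  have hz0' : 0 < ‖z0‖ := norm_pos_iff.mpr hz0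
  have hge : ∀ β ∈ S, a ≤ β := by
    intro β hβ
    have h1 := (hlo 0 z0).trans (hβ 0 z0)
    exact le_of_mul_le_mul_right h1 (by positivity)
  have hbdd : BddBelow S := ⟨a, hge⟩
  have hne : b ∈ S := hup
  refine ⟨sInf S, le_csInf ⟨b, hne⟩ hge, ?_, fun β' h => csInf_le hbdd h⟩
  intro x z
  rcases eq_or_ne z 0 with rfl | hz
  · simp [sd]; linarith
  · have hz' : 0 < ‖z‖ ^ 2 := by have := norm_pos_iff.mpr hz; positivity
    rw [← div_le_iff₀ hz']
    refine le_csInf ⟨b, hne⟩ fun β hβ => ?_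
    rw [div_le_iff₀ hz']
    exact hβ x z

/-- The core: an admissible fixed point has equal best constants. -/
theorem core {m : ℕ} (h_dual_lo : S_dual_lo) (h_dual_up : S_dual_up)
    (h_slice_lo : S_slice_lo) (h_slice_up : S_slice_up) (h_slice_crude : S_slice_crude)
    (h_adm : S_adm_of_slices) (h_univ : S_univ_bd)
    {Ψ h : E (m + 2) → ℝ} {a b Z c : ℝ} (hW : Wt Ψ a b) (hZ : 0 < Z) (hI : Iso Ψ Z) (hc : 0 < c)
    (hh : ∀ u, h u = c * FF Ψ u)
    (young : ∀ x ξ, inner ℝ x ξ ≤ Ψ x + h ξ ^ 2 / 2)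
    (att : ∀ x, ∃ ξ, inner ℝ x ξ = Ψ x + h ξ ^ 2 / 2) :
    ∃ α : ℝ, 0 < α ∧ ∀ x z, sd Ψ x z = α * ‖z‖ ^ 2 := by
  have hn : 2 ≤ m + 2 := by omega
  have hex : ∃ z : E (m + 2), z ≠ 0 := exists_ne 0
  -- crude bounds
  obtain ⟨j1, j2, hj1, hj⟩ := h_slice_crude hW
  have hadm0 := h_adm hW hj
  obtain ⟨gm0, gp0, hgm0, hgp0, hg0⟩ := hess_crude hn hadm0 (by linarith)
  -- transfer from `F` to `h` and by duality to `Ψ`
  have tr : ∀ gm gp : ℝ, 0 < gm → 0 < gp →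
      (∀ x z, gm * ‖z‖ ^ 2 ≤ sd (fun x => FF Ψ x ^ 2 / 2) x z ∧
        sd (fun x => FF Ψ x ^ 2 / 2) x z ≤ gp * ‖z‖ ^ 2) →
      (∀ x z, (c ^ 2 * gp)⁻¹ * ‖z‖ ^ 2 ≤ sd Ψ x z) ∧
        (∀ x z, sd Ψ x z ≤ (c ^ 2 * gm)⁻¹ * ‖z‖ ^ 2) := by
    intro gm gp hgm hgp hg
    constructor
    · refine h_dual_lo (Φ := fun ξ => h ξ ^ 2 / 2) young att (by positivity) fun x z => ?_
      rw [sd_scale hh]
      calc c ^ 2 * sd (fun u => FF Ψ u ^ 2 / 2) x z ≤ c ^ 2 * (gp * ‖z‖ ^ 2) :=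
            mul_le_mul_of_nonneg_left (hg x z).2 (by positivity)
        _ = _ := by ring
    · refine h_dual_up (Φ := fun ξ => h ξ ^ 2 / 2) young att (by positivity) fun x z => ?_
      rw [sd_scale hh]
      calc c ^ 2 * gm * ‖z‖ ^ 2 = c ^ 2 * (gm * ‖z‖ ^ 2) := by ring
        _ ≤ _ := mul_le_mul_of_nonneg_left (hg x z).1 (by positivity)
  obtain ⟨lo0, up0⟩ := tr gm0 gp0 hgm0 hgp0 hg0
  obtain ⟨α, hα, hαlo, hαbest⟩ := best_lo hex up0 (by positivity) lo0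
  obtain ⟨β, hαβ, hβup, hβbest⟩ := best_up hex up0 hαlo
  have hβ : 0 < β := hα.trans_le hαβ
  rcases eq_or_lt_of_le hαβ with heq | hlt
  · refine ⟨α, hα, fun x z => le_antisymm ?_ (hαlo x z)⟩
    rw [heq]; exact hβup x z
  · exfalso
    -- slice bounds
    set q := Z / √(2 * π) with hq
    have h2π : 0 < √(2 * π) := Real.sqrt_pos.mpr (by positivity)
    have hq0 : 0 < q := by positivity
    have hJ : ∀ bs : OrthonormalBasis (Fin (m + 2)) ℝ (E (m + 2)),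
        √α * q ≤ JJ Ψ bs ∧ JJ Ψ bs ≤ √β * q := by
      intro bs
      have h1 := h_slice_lo hW hα hαlo hI bs
      have h2 := h_slice_up hW hβ hβup hI bs
      constructor
      · rw [hq, mul_div_assoc', div_le_iff₀ h2π]; linarith
      · rw [hq, mul_div_assoc', le_div_iff₀ h2π]; linarith
    have hadm := h_adm hW hJ
    have hsα : 0 < √α := Real.sqrt_pos.mpr hα
    have hsβ : 0 < √β := Real.sqrt_pos.mpr hβ
    have hs : √α < √β := Real.sqrt_lt_sqrt hα.le hlt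
    have hA : 0 < 2 * (√α * q) := by positivity
    have hAB : 2 * (√α * q) < 2 * (√β * q) := by
      have := mul_lt_mul_of_pos_right hs hq0
      linarith
    have hconv : ∀ x z, 0 ≤ sd Ψ x z := fun x z => by
      have := hαlo x z
      have h0 : 0 ≤ α * ‖z‖ ^ 2 := by positivity
      linarith
    obtain ⟨gm, gp, hgm, hgp, hgg, hg⟩ := hess hn hadm hA hAB
      (Or.inr fun u v hu hv => h_univ hW hconv hI u v hu hv)
    obtain ⟨lo1, up1⟩ := tr gm gp hgm hgp hg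
    have k1 := hαbest _ lo1
    have k2 := hβbest _ up1
    -- `(c² gp)⁻¹ ≤ α`, `β ≤ (c² gm)⁻¹`, `gp α < gm β`
    have hsα2 : √α ^ 2 = α := Real.sq_sqrt hα.le
    have hsβ2 : √β ^ 2 = β := Real.sq_sqrt hβ.le
    have e1 : gp * α < gm * β := by
      have e : gp * (2 * (√α * q)) ^ 2 = 4 * q ^ 2 * (gp * α) := by
        rw [← hsα2]; ring_nf; rw [Real.sq_sqrt (by positivity)]
      have e' : gm * (2 * (√β * q)) ^ 2 = 4 * q ^ 2 * (gm * β) := by
        rw [← hsβ2]; ring_nf; rw [Real.sq_sqrt (by positivity)]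
      rw [e, e'] at hgg
      exact lt_of_mul_lt_mul_left hgg (by positivity)
    have k1' : 1 ≤ α * (c ^ 2 * gp) := by
      rwa [inv_le_iff_one_le_mul₀ (by positivity)] at k1
    have k2' : β * (c ^ 2 * gm) ≤ 1 := by
      have := mul_le_mul_of_nonneg_right k2 (by positivity : 0 ≤ c ^ 2 * gm)
      rwa [inv_mul_cancel₀ (by positivity : c ^ 2 * gm ≠ 0)] at this
    have : c ^ 2 * (gp * α) < c ^ 2 * (gm * β) := mul_lt_mul_of_pos_left e1 (by positivity)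
    nlinarith

/-- The origin is an interior point. -/
theorem SBody.nhds {n : ℕ} {K : Set (E n)} (hK : SBody K) : K ∈ nhds (0 : E n) := by
  obtain ⟨x, hx⟩ := hK.int
  have h1 : -x ∈ K := hK.symm x (interior_subset hx)
  have h2 : (1 / 2 : ℝ) • x + (1 / 2 : ℝ) • (-x) ∈ interior K :=
    hK.conv.combo_interior_self_mem_interior hx h1 (by norm_num) (by norm_num) (by norm_num)
  have h3 : (1 / 2 : ℝ) • x + (1 / 2 : ℝ) • (-x) = 0 := by simp
  rw [h3] at h2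
  exact mem_interior_iff_mem_nhds.mp h2

theorem iso_ball (h_dual_lo : S_dual_lo) (h_dual_up : S_dual_up)
    (h_young : S_young) (h_young_att : S_young_att) (h_wt : S_wt_gau)
    (h_slice_lo : S_slice_lo) (h_slice_up : S_slice_up) (h_slice_crude : S_slice_crude)
    (h_adm : S_adm_of_slices) (h_univ : S_univ_bd) (h_one : S_conv_one) (h_two : S_conv_two) :
    S_iso_ball := by
  intro m K hK c σ hc hσ heq hiso
  obtain ⟨a, b, hW⟩ := h_wt hK
  obtain ⟨C1, hC1, h1⟩ := h_one hK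
  obtain ⟨C2, hC2, h2⟩ := h_two hK
  have hI : Iso (gau K) (C2 * σ) := by
    intro u
    rw [h2 u, hiso u]; ring
  have hh : ∀ u, supp K u = (c / C1) * FF (gau K) u := by
    intro u
    rw [heq u, h1 u]; field_simp
  obtain ⟨α, hα, hsd⟩ := core h_dual_lo h_dual_up h_slice_lo h_slice_up h_slice_crude h_adm h_univ
    hW (by positivity) hI (by positivity) hh (h_young hK) (h_young_att hK)
  have hg : ∀ z, gauge K z = √α * ‖z‖ := by
    intro z
    have e1 := hsd 0 z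
    simp only [sd, zero_add, zero_sub, hW.even, hW.map_zero] at e1
    have e2 : (gauge K z) ^ 2 = α * ‖z‖ ^ 2 := by
      unfold gau at e1; linarith
    have e3 : (√α * ‖z‖) ^ 2 = α * ‖z‖ ^ 2 := by rw [mul_pow, Real.sq_sqrt hα.le]
    have e4 : (gauge K z) ^ 2 = (√α * ‖z‖) ^ 2 := by rw [e2, e3]
    exact (pow_left_inj₀ (gauge_nonneg z) (by positivity) two_ne_zero).mp e4
  have hsα : 0 < √α := Real.sqrt_pos.mpr hα
  refine ⟨(√α)⁻¹, by positivity, ?_⟩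
  ext x
  rw [mem_closedBall_zero_iff]
  have h5 := gauge_le_one_iff_mem_closure hK.conv hK.nhds (x := x)
  rw [hK.comp.isClosed.closure_eq] at h5
  rw [← h5, hg, ← one_div, le_div_iff₀ hsα, mul_comm]

/-- The half volume theorem from the module statements. -/
theorem half_of (h_iso_ball : S_iso_ball) (h_exists_iso : S_exists_iso) (h_eqn : S_eqn_image)
    (h_red : S_reduction)
    (h_small : ∀ {n : ℕ}, n ≤ 1 → ∀ {K : Set (E n)}, Convex ℝ K → IsCompact K →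
      (interior K).Nonempty → Pool.Agent.Helper16.Buoy.IsEllipsoid K)
    (h_ell : ∀ {n : ℕ} {K : Set (E n)} {p : E n} {T : E n ≃L[ℝ] E n} {r : ℝ}, 0 < r →
      T '' ((fun x => x - p) '' K) = closedBall 0 r → Pool.Agent.Helper16.Buoy.IsEllipsoid K)
    {n : ℕ} {K : Set (E n)} (hconv : Convex ℝ K) (hcomp : IsCompact K)
    (hint : (interior K).Nonempty) {d : ℝ} (hd : 2 * ENNReal.ofReal d = volume K)
    (hhom : Pool.Agent.Helper16.Buoy.Homothetic K (Pool.Agent.Helper16.Buoy.buoyancyBody K d)) :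
    Pool.Agent.Helper16.Buoy.IsEllipsoid K := by
  rcases Nat.lt_or_ge n 2 with hn | hn
  · exact h_small (by omega) hconv hcomp hint
  · obtain ⟨m, rfl⟩ : ∃ m, n = m + 2 := ⟨n - 2, by omega⟩
    obtain ⟨p, c, hc, hS, heq⟩ := h_red (by omega) hconv hcomp hint hd hhom
    obtain ⟨T, σ, hσ, hiso⟩ := h_exists_iso hS
    obtain ⟨hS', c', hc', heq'⟩ := h_eqn hS T hc heq
    obtain ⟨r, hr, hball⟩ := h_iso_ball hS' hc' hσ heq' hiso
    exact h_ell hr hball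

end Pool.Agent.Helper73.HV
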