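import Pool.Agent.Helper73.HV.Stmts
import Pool.Agent.Helper73.HV.PL

/-!
# Coordinates adapted to an orthonormal basis; Prekopa-Leindler on `ℝ × (Fin m → ℝ)`
-/

open MeasureTheory Set Metric Real
open scoped RealInnerProductSpace ENNReal
open Pool.Agent.Helper16.Buoy (E)

namespace Pool.Agent.Helper73.HV

variable {m : ℕ} (b : OrthonormalBasis (Fin (m + 2)) ℝ (E (m + 2)))

/-- The coordinate vector in `Fin (m+2) → ℝ`. -/
def cvec (p : ℝ × ℝ × (Fin m → ℝ)) : Fin (m + 2) → ℝ := Fin.cons p.1 (Fin.cons p.2.1 p.2.2)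

theorem slc_eq (p : ℝ × ℝ × (Fin m → ℝ)) :
    slc b p = b.repr.symm (WithLp.toLp 2 (cvec p)) := by
  rw [← b.sum_repr (b.repr.symm (WithLp.toLp 2 (cvec p)))]
  simp only [LinearIsometryEquiv.apply_symm_apply, Fin.sum_univ_succ]
  simp [slc, cvec, add_assoc]

theorem inner_slc (i : Fin (m + 2)) (p : ℝ × ℝ × (Fin m → ℝ)) : inner ℝ (b i) (slc b p) = cvec p i := by
  rw [slc_eq, ← b.repr_apply_apply]
  simp

theorem inner_slc_zero (p : ℝ × ℝ × (Fin m → ℝ)) : inner ℝ (b 0) (slc b p) = p.1 := by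
  rw [inner_slc]; simp [cvec]

theorem inner_slc_one (p : ℝ × ℝ × (Fin m → ℝ)) : inner ℝ (b 1) (slc b p) = p.2.1 := by
  rw [inner_slc]
  have : (1 : Fin (m + 2)) = Fin.succ 0 := rfl
  rw [this]; simp [cvec]

theorem norm_slc_sq (p : ℝ × ℝ × (Fin m → ℝ)) :
    ‖slc b p‖ ^ 2 = p.1 ^ 2 + p.2.1 ^ 2 + ∑ i, p.2.2 i ^ 2 := by
  rw [slc_eq, LinearIsometryEquiv.norm_map, EuclideanSpace.norm_sq_eq]
  simp [cvec, Fin.sum_univ_succ, add_assoc]

theorem slc_add (p q : ℝ × ℝ × (Fin m → ℝ)) : slc b (p + q) = slc b p + slc b q := by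
  simp only [slc, Prod.fst_add, Prod.snd_add, Pi.add_apply, add_smul, Finset.sum_add_distrib]
  abel

theorem slc_smul (c : ℝ) (p : ℝ × ℝ × (Fin m → ℝ)) : slc b (c • p) = c • slc b p := by
  simp only [slc, Prod.smul_fst, Prod.smul_snd, Pi.smul_apply, smul_add, Finset.smul_sum, smul_smul,
    smul_eq_mul]

theorem slc_neg (p : ℝ × ℝ × (Fin m → ℝ)) : slc b (-p) = - slc b p := by
  have := slc_smul b (-1) p
  simpa using this

theorem slc_sub (p q : ℝ × ℝ × (Fin m → ℝ)) : slc b (p - q) = slc b p - slc b q := by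
  rw [sub_eq_add_neg, slc_add, slc_neg, sub_eq_add_neg]

theorem continuous_slc : Continuous (slc b) := by
  unfold slc
  fun_prop

/-- The coordinates as a measurable equivalence. -/
noncomputable def cmeq (m : ℕ) : (ℝ × ℝ × (Fin m → ℝ)) ≃ᵐ (Fin (m + 2) → ℝ) :=
  (MeasurableEquiv.prodCongr (MeasurableEquiv.refl ℝ)
    (MeasurableEquiv.piFinSuccAbove (fun _ : Fin (m + 1) => ℝ) 0).symm).trans
    (MeasurableEquiv.piFinSuccAbove (fun _ : Fin (m + 2) => ℝ) 0).symm

theorem cmeq_apply (p : ℝ × ℝ × (Fin m → ℝ)) : cmeq m p = cvec p := by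
  unfold cmeq cvec
  simp only [MeasurableEquiv.trans_apply]
  rw [Pool.Agent.Helper73.PL.symm_eq_cons]
  congr 1
  show (MeasurableEquiv.piFinSuccAbove (fun _ : Fin (m + 1) => ℝ) 0).symm p.2 = _
  rw [Pool.Agent.Helper73.PL.symm_eq_cons]

theorem measurePreserving_cmeq : MeasurePreserving (cmeq m) volume volume := by
  have h1 := (volume_preserving_piFinSuccAbove (fun _ : Fin (m + 2) => ℝ) 0).symm
  have h2 := (volume_preserving_piFinSuccAbove (fun _ : Fin (m + 1) => ℝ) 0).symm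
  have h3 : MeasurePreserving (Prod.map (id : ℝ → ℝ)
      (MeasurableEquiv.piFinSuccAbove (fun _ : Fin (m + 1) => ℝ) 0).symm)
      (volume : Measure (ℝ × ℝ × (Fin m → ℝ))) (volume : Measure (ℝ × (Fin (m + 1) → ℝ))) :=
    (MeasurePreserving.id volume).prod h2
  exact h1.comp h3

theorem slc_eq_comp : slc b = (fun y => b.repr.symm y) ∘ (WithLp.toLp 2) ∘ (cmeq m) := by
  ext1 p
  simp only [Function.comp_apply, cmeq_apply, slc_eq]

theorem measurePreserving_slc : MeasurePreserving (slc b) volume volume := by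
  rw [slc_eq_comp]
  exact (b.repr.symm.measurePreserving).comp
    ((PiLp.volume_preserving_toLp (Fin (m + 2))).comp measurePreserving_cmeq)

theorem measurableEmbedding_slc : MeasurableEmbedding (slc b) := by
  rw [slc_eq_comp]
  exact (b.repr.symm.toHomeomorph.measurableEmbedding).comp
    ((MeasurableEquiv.toLp 2 (Fin (m + 2) → ℝ)).measurableEmbedding.comp
      (cmeq m).measurableEmbedding)

theorem integral_slc (φ : E (m + 2) → ℝ) : ∫ x, φ x = ∫ p, φ (slc b p) :=
  ((measurePreserving_slc b).integral_comp (measurableEmbedding_slc b) φ).symm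

theorem integrable_slc {φ : E (m + 2) → ℝ} : Integrable (fun p => φ (slc b p)) ↔ Integrable φ :=
  (measurePreserving_slc b).integrable_comp_emb (measurableEmbedding_slc b)

/-- Midpoint Prekopa-Leindler on `ℝ × (Fin m → ℝ)`. -/
theorem pl_prod {f g h : ℝ × (Fin m → ℝ) → ℝ≥0∞} (hf : Measurable f) (hg : Measurable g)
    (hh : Measurable h) (H : ∀ x y, f x * g y ≤ h ((1 / 2 : ℝ) • (x + y)) ^ 2) :
    (∫⁻ x, f x) * (∫⁻ x, g x) ≤ (∫⁻ x, h x) ^ 2 := by
  have hmp := volume_preserving_piFinSuccAbove (fun _ : Fin (m + 1) => ℝ) 0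
  set e := MeasurableEquiv.piFinSuccAbove (fun _ : Fin (m + 1) => ℝ) 0 with he
  have key := Pool.Agent.Helper73.PL.pl_midpoint (m + 1) (f := f ∘ e) (g := g ∘ e) (h := h ∘ e)
    (hf.comp e.measurable) (hg.comp e.measurable) (hh.comp e.measurable) (by
      intro x y
      refine (H (e x) (e y)).trans (le_of_eq ?_)
      congr 2
      ext
      · simp [he, MeasurableEquiv.piFinSuccAbove, Fin.insertNthEquiv]
        ring
      · simp [he, MeasurableEquiv.piFinSuccAbove, Fin.insertNthEquiv, Fin.tail]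
        ring)
  have e1 : ∀ u : ℝ × (Fin m → ℝ) → ℝ≥0∞, Measurable u → ∫⁻ x, (u ∘ e) x = ∫⁻ x, u x := by
    intro u hu
    exact hmp.lintegral_comp hu
  rwa [e1 f hf, e1 g hg, e1 h hh] at key

end Pool.Agent.Helper73.HV
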