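import Pool.Agent.Helper73.HV.Defs

/-!
# Statements of the modules (project MP_a2630c_HV)

Module `x` proves `theorem x : S_x` (or the same statement with the quantifiers before the colon).
-/

open MeasureTheory Set Metric Real
open scoped RealInnerProductSpace ENNReal
open Pool.Agent.Helper16.Buoy (E)

namespace Pool.Agent.Helper73.HV

/-! ## A. Hessian contraction -/

def S_hess : Prop := ∀ {n : ℕ}, 2 ≤ n → ∀ {F : E n → ℝ} {A B : ℝ}, Adm F A B → 0 < A → A < B →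
    (B ≤ 10 * A ∨ ∀ u v : E n, ‖u‖ = 1 → ‖v‖ = 1 → F u ≤ √2 * F v) →
    ∃ gm gp : ℝ, 0 < gm ∧ 0 < gp ∧ gp * A ^ 2 < gm * B ^ 2 ∧
      ∀ x z, gm * ‖z‖ ^ 2 ≤ sd (fun x => F x ^ 2 / 2) x z ∧
        sd (fun x => F x ^ 2 / 2) x z ≤ gp * ‖z‖ ^ 2

def S_hess_crude : Prop := ∀ {n : ℕ}, 2 ≤ n → ∀ {F : E n → ℝ} {A B : ℝ}, Adm F A B → 0 < A →
    ∃ gm gp : ℝ, 0 < gm ∧ 0 < gp ∧
      ∀ x z, gm * ‖z‖ ^ 2 ≤ sd (fun x => F x ^ 2 / 2) x z ∧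
        sd (fun x => F x ^ 2 / 2) x z ≤ gp * ‖z‖ ^ 2

/-! ## B. Legendre duality -/

def S_dual_lo : Prop := ∀ {n : ℕ} {Ψ Φ : E n → ℝ}, (∀ x ξ, inner ℝ x ξ ≤ Ψ x + Φ ξ) →
    (∀ x, ∃ ξ, inner ℝ x ξ = Ψ x + Φ ξ) → ∀ {M : ℝ}, 0 < M →
    (∀ x z, sd Φ x z ≤ M * ‖z‖ ^ 2) → ∀ x z, M⁻¹ * ‖z‖ ^ 2 ≤ sd Ψ x z

def S_dual_up : Prop := ∀ {n : ℕ} {Ψ Φ : E n → ℝ}, (∀ x ξ, inner ℝ x ξ ≤ Ψ x + Φ ξ) →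
    (∀ x, ∃ ξ, inner ℝ x ξ = Ψ x + Φ ξ) → ∀ {M : ℝ}, 0 < M →
    (∀ x z, M * ‖z‖ ^ 2 ≤ sd Φ x z) → ∀ x z, sd Ψ x z ≤ M⁻¹ * ‖z‖ ^ 2

/-! ## C. Gauge and support function -/

def S_young : Prop := ∀ {n : ℕ} {K : Set (E n)}, SBody K → ∀ (x ξ : E n),
    inner ℝ x ξ ≤ gau K x + (supp K ξ) ^ 2 / 2

def S_young_att : Prop := ∀ {n : ℕ} {K : Set (E n)}, SBody K → ∀ (x : E n),
    ∃ ξ, inner ℝ x ξ = gau K x + (supp K ξ) ^ 2 / 2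

def S_wt_gau : Prop := ∀ {n : ℕ} {K : Set (E n)}, SBody K → ∃ a b, Wt (gau K) a b

/-! ## D. Slice bounds -/

def S_slice_lo : Prop := ∀ {m : ℕ} {Ψ : E (m + 2) → ℝ} {a b α Z : ℝ}, Wt Ψ a b → 0 < α →
    (∀ x z, α * ‖z‖ ^ 2 ≤ sd Ψ x z) → Iso Ψ Z →
    ∀ bs : OrthonormalBasis (Fin (m + 2)) ℝ (E (m + 2)), √α * Z ≤ √(2 * π) * JJ Ψ bs

def S_slice_up : Prop := ∀ {m : ℕ} {Ψ : E (m + 2) → ℝ} {a b β Z : ℝ}, Wt Ψ a b → 0 < β →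
    (∀ x z, sd Ψ x z ≤ β * ‖z‖ ^ 2) → Iso Ψ Z →
    ∀ bs : OrthonormalBasis (Fin (m + 2)) ℝ (E (m + 2)), √(2 * π) * JJ Ψ bs ≤ √β * Z

def S_slice_crude : Prop := ∀ {m : ℕ} {Ψ : E (m + 2) → ℝ} {a b : ℝ}, Wt Ψ a b →
    ∃ j1 j2 : ℝ, 0 < j1 ∧ ∀ bs : OrthonormalBasis (Fin (m + 2)) ℝ (E (m + 2)),
      j1 ≤ JJ Ψ bs ∧ JJ Ψ bs ≤ j2

/-! ## F. The line formula -/

def S_adm_of_slices : Prop := ∀ {m : ℕ} {Ψ : E (m + 2) → ℝ} {a b j1 j2 : ℝ}, Wt Ψ a b →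
    (∀ bs : OrthonormalBasis (Fin (m + 2)) ℝ (E (m + 2)), j1 ≤ JJ Ψ bs ∧ JJ Ψ bs ≤ j2) →
    Adm (FF Ψ) (2 * j1) (2 * j2)

/-! ## G. Universal bound -/

def S_univ_bd : Prop := ∀ {m : ℕ} {Ψ : E (m + 2) → ℝ} {a b Z : ℝ}, Wt Ψ a b →
    (∀ x z, 0 ≤ sd Ψ x z) → Iso Ψ Z → ∀ (u v : E (m + 2)), ‖u‖ = 1 → ‖v‖ = 1 →
    FF Ψ u ≤ √2 * FF Ψ v

/-! ## H. From `K` to the weight -/

def S_conv_one : Prop := ∀ {n : ℕ} {K : Set (E n)}, SBody K →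
    ∃ C : ℝ, 0 < C ∧ ∀ u, FF (gau K) u = C * ∫ x in K, |inner ℝ u x|

def S_conv_two : Prop := ∀ {n : ℕ} {K : Set (E n)}, SBody K →
    ∃ C : ℝ, 0 < C ∧ ∀ u, ∫ x, (inner ℝ u x) ^ 2 * exp (-gau K x) = C * ∫ x in K, (inner ℝ u x) ^ 2

/-! ## I. Isotropic position -/

def S_exists_iso : Prop := ∀ {n : ℕ} {K : Set (E n)}, SBody K →
    ∃ (T : E n ≃L[ℝ] E n) (σ : ℝ), 0 < σ ∧ ∀ u, ∫ x in T '' K, (inner ℝ u x) ^ 2 = σ * ‖u‖ ^ 2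

def S_eqn_image : Prop := ∀ {n : ℕ} {K : Set (E n)}, SBody K → ∀ (T : E n ≃L[ℝ] E n) {c : ℝ},
    0 < c → (∀ u, supp K u = c * ∫ x in K, |inner ℝ u x|) →
    SBody (T '' K) ∧ ∃ c' : ℝ, 0 < c' ∧ ∀ u, supp (T '' K) u = c' * ∫ x in T '' K, |inner ℝ u x|

/-! ## J. Reduction -/

def S_reduction : Prop := ∀ {n : ℕ}, 1 ≤ n → ∀ {K : Set (E n)}, Convex ℝ K → IsCompact K →
    (interior K).Nonempty → ∀ {d : ℝ}, 2 * ENNReal.ofReal d = volume K →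
    Pool.Agent.Helper16.Buoy.Homothetic K (Pool.Agent.Helper16.Buoy.buoyancyBody K d) →
    ∃ (p : E n) (c : ℝ), 0 < c ∧ SBody ((fun x => x - p) '' K) ∧
      ∀ u, supp ((fun x => x - p) '' K) u = c * ∫ x in (fun x => x - p) '' K, |inner ℝ u x|

/-! ## K. Assembly -/

def S_iso_ball : Prop := ∀ {m : ℕ} {K : Set (E (m + 2))}, SBody K → ∀ {c σ : ℝ}, 0 < c → 0 < σ →
    (∀ u, supp K u = c * ∫ x in K, |inner ℝ u x|) →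
    (∀ u, ∫ x in K, (inner ℝ u x) ^ 2 = σ * ‖u‖ ^ 2) →
    ∃ r : ℝ, 0 < r ∧ K = closedBall 0 r

end Pool.Agent.Helper73.HV
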